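import Pool.Agent.Confl.Defs

/-! # A graph on seven vertices (helper14) -/

set_option autoImplicit false

open Set

namespace Pool.Agent.Confl

/-- The pattern: six vertices in the cyclic order `0, …, 5` given by `x`, in one of the two
directions, with the edges `13, 04, 25` and without the edges `03, 14, 15, 24`. -/
def PatX {V : Type} (G : SimpleGraph V) (x : V → ℝ) (v : Fin 6 → V) : Prop :=
  Function.Injective v ∧
  (∀ i j k l : Fin 6, i < j → j < k → k < l →
    (Btw x (v i) (v k) (v j) ↔ ¬ Btw x (v i) (v k) (v l))) ∧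
  G.Adj (v 1) (v 3) ∧ G.Adj (v 0) (v 4) ∧ G.Adj (v 2) (v 5) ∧
  ¬ G.Adj (v 0) (v 3) ∧ ¬ G.Adj (v 1) (v 4) ∧ ¬ G.Adj (v 1) (v 5) ∧ ¬ G.Adj (v 2) (v 4)

/-- The graph on seven vertices `0, …, 6` with the nonedges `03, 15, 24, 25, 26, 36, 46`. -/
def G7 : SimpleGraph (Fin 7) :=
  SimpleGraph.fromRel fun i j => (i.1, j.1) ∉ [(0, 3), (1, 5), (2, 4), (2, 5), (2, 6), (3, 6), (4, 6)] ∧
    i < j

/-- the adjacency table of `G7` -/
def adj7 (i j : Fin 7) : Bool := Nat.testBit 157001300766454 (7 * i.1 + j.1)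

lemma adj7_iff (i j : Fin 7) : G7.Adj i j ↔ adj7 i j = true := by
  rw [G7, SimpleGraph.fromRel_adj]
  revert i j
  decide

/-- the condition `LC` for four vertices in this order -/
def lcB (a b c d : Fin 7) : Bool :=
  !(adj7 a c && adj7 b d) || (adj7 a b && adj7 c d) || (adj7 a d && adj7 b c)

lemma lcB_iff (a b c d : Fin 7) : lcB a b c d = true ↔ (G7.Adj a c → G7.Adj b d →
    (G7.Adj a b ∧ G7.Adj c d) ∨ (G7.Adj a d ∧ G7.Adj b c)) := by
  simp only [adj7_iff, lcB]
  cases adj7 a c <;> cases adj7 b d <;> cases adj7 a b <;> cases adj7 c d <;> cases adj7 a d <;>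
    cases adj7 b c <;> simp

theorem lc_G7 : LC G7 (fun i => (i : ℝ)) := by
  intro a b c d hab hbc hcd
  have h : ∀ a b c d : Fin 7, a < b → b < c → c < d → lcB a b c d = true := by decide +kernel
  have cast : ∀ i j : Fin 7, ((i : ℕ) : ℝ) < ((j : ℕ) : ℝ) → i < j := fun i j hij => by
    exact_mod_cast hij
  exact (lcB_iff a b c d).1 (h a b c d (cast a b hab) (cast b c hbc) (cast c d hcd))

/-- the conditions on vertex number 3 of the order -/
def cn3 (a b c d : Fin 7) : Bool := decide (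
  a ≠ d ∧ b ≠ d ∧ c ≠ d ∧ lcB a b c d = true)

/-- the conditions on vertex number 4 of the order -/
def cn4 (a b c d e : Fin 7) : Bool := decide (
  a ≠ e ∧ b ≠ e ∧ c ≠ e ∧ d ≠ e ∧ lcB a b c e = true ∧ lcB a b d e = true ∧
  lcB a c d e = true ∧ lcB b c d e = true)

/-- the conditions on vertex number 5 of the order -/
def cn5 (a b c d e f : Fin 7) : Bool := decide (
  a ≠ f ∧ b ≠ f ∧ c ≠ f ∧ d ≠ f ∧ e ≠ f ∧ lcB a b c f = true ∧ lcB a b d f = true ∧
  lcB a b e f = true ∧ lcB a c d f = true ∧ lcB a c e f = true ∧ lcB a d e f = true ∧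
  lcB b c d f = true ∧ lcB b c e f = true ∧ lcB b d e f = true ∧ lcB c d e f = true)

/-- the conditions on vertex number 6 of the order -/
def cn6 (a b c d e f g : Fin 7) : Bool := decide (
  a ≠ g ∧ b ≠ g ∧ c ≠ g ∧ d ≠ g ∧ e ≠ g ∧ f ≠ g ∧ lcB a b c g = true ∧ lcB a b d g = true ∧
  lcB a b e g = true ∧ lcB a b f g = true ∧ lcB a c d g = true ∧ lcB a c e g = true ∧
  lcB a c f g = true ∧ lcB a d e g = true ∧ lcB a d f g = true ∧ lcB a e f g = true ∧
  lcB b c d g = true ∧ lcB b c e g = true ∧ lcB b c f g = true ∧ lcB b d e g = true ∧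
  lcB b d f g = true ∧ lcB b e f g = true ∧ lcB c d e g = true ∧ lcB c d f g = true ∧
  lcB c e f g = true ∧ lcB d e f g = true)

/-- the order is cyclic or reversed cyclic -/
def lf (a b c d e f g : Fin 7) : Bool := decide (
    ((b = a + 1 ∧ c = a + 2 ∧ d = a + 3 ∧ e = a + 4 ∧ f = a + 5 ∧ g = a + 6) ∨
      (b = a - 1 ∧ c = a - 2 ∧ d = a - 3 ∧ e = a - 4 ∧ f = a - 5 ∧ g = a - 6)))

/-- stage 6 of the search -/
def st6 (a b c d e f : Fin 7) : Prop :=
  ∀ g : Fin 7, cn6 a b c d e f g = true → lf a b c d e f g = true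

instance (a b c d e f : Fin 7) : Decidable (st6 a b c d e f) := by
  unfold st6; infer_instance

/-- stage 5 of the search -/
def st5 (a b c d e : Fin 7) : Prop :=
  ∀ f : Fin 7, cn5 a b c d e f = true → st6 a b c d e f

instance (a b c d e : Fin 7) : Decidable (st5 a b c d e) := by
  unfold st5; infer_instance

/-- stage 4 of the search -/
def st4 (a b c d : Fin 7) : Prop :=
  ∀ e : Fin 7, cn4 a b c d e = true → st5 a b c d e

instance (a b c d : Fin 7) : Decidable (st4 a b c d) := by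
  unfold st4; infer_instance

/-- stage 3 of the search -/
def st3 (a b c : Fin 7) : Prop :=
  ∀ d : Fin 7, cn3 a b c d = true → st4 a b c d

instance (a b c : Fin 7) : Decidable (st3 a b c) := by
  unfold st3; infer_instance

theorem fin7 : ∀ a b : Fin 7, a ≠ b → ∀ c : Fin 7, (a ≠ c ∧ b ≠ c) → st3 a b c := by
  decide +kernel

/-- the pattern in `G7` -/
def v7 : Fin 6 → Fin 7 := ![1, 3, 4, 5, 6, 0]

/-- `Btw` for ranks -/
def btwF (p : Fin 7 → Fin 7) (a b c : Fin 7) : Prop := (p a < p c ∧ p c < p b) ∨ (p b < p c ∧ p c < p a)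

instance (p : Fin 7 → Fin 7) (a b c : Fin 7) : Decidable (btwF p a b c) := by
  unfold btwF; infer_instance

lemma cyc_add : ∀ s : Fin 7, ∀ i j k l : Fin 6, i < j → j < k → k < l →
    (btwF (fun u => u - s) (v7 i) (v7 k) (v7 j) ↔ ¬ btwF (fun u => u - s) (v7 i) (v7 k) (v7 l)) := by
  decide +kernel

lemma cyc_sub : ∀ s : Fin 7, ∀ i j k l : Fin 6, i < j → j < k → k < l →
    (btwF (fun u => s - u) (v7 i) (v7 k) (v7 j) ↔ ¬ btwF (fun u => s - u) (v7 i) (v7 k) (v7 l)) := by
  decide +kernel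

theorem patX_G7 (x : Fin 7 → ℝ) (hx : Function.Injective x) (h : LC G7 x) :
    ∃ v, PatX G7 x v := by
  obtain ⟨w, hw⟩ : ∃ w : Equiv.Perm (Fin 7), StrictMono (x ∘ w) :=
    ⟨Tuple.sort x, (Tuple.monotone_sort x).strictMono_of_injective (hx.comp (Tuple.sort x).injective)⟩
  have hne : ∀ i j : Fin 7, i ≠ j → w i ≠ w j := fun i j hij => w.injective.ne hij
  have hl0 : ∀ i j k l : Fin 7, i < j → j < k → k < l → lcB (w i) (w j) (w k) (w l) = true :=
    fun i j k l hij hjk hkl => (lcB_iff _ _ _ _).2 (h _ _ _ _ (hw hij) (hw hjk) (hw hkl))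
  have hl : ∀ i j k l : Fin 7, i < j ∧ j < k ∧ k < l →
      lcB (w i) (w j) (w k) (w l) = true := fun i j k l hd => hl0 i j k l hd.1 hd.2.1 hd.2.2
  have key := of_decide_eq_true (fin7 (w 0) (w 1) (hne 0 1 (by decide)) (w 2) ⟨hne 0 2 (by decide), hne 1 2 (by decide)⟩
    (w 3) (decide_eq_true ⟨hne 0 3 (by decide), hne 1 3 (by decide), hne 2 3 (by decide),
      hl 0 1 2 3 (by decide)⟩)
    (w 4) (decide_eq_true ⟨hne 0 4 (by decide), hne 1 4 (by decide), hne 2 4 (by decide),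
      hne 3 4 (by decide), hl 0 1 2 4 (by decide), hl 0 1 3 4 (by decide), hl 0 2 3 4 (by decide), hl 1 2 3 4 (by decide)⟩)
    (w 5) (decide_eq_true ⟨hne 0 5 (by decide), hne 1 5 (by decide), hne 2 5 (by decide),
      hne 3 5 (by decide), hne 4 5 (by decide), hl 0 1 2 5 (by decide), hl 0 1 3 5 (by decide), hl 0 1 4 5 (by decide), hl 0 2 3 5 (by decide),
      hl 0 2 4 5 (by decide), hl 0 3 4 5 (by decide), hl 1 2 3 5 (by decide), hl 1 2 4 5 (by decide), hl 1 3 4 5 (by decide), hl 2 3 4 5 (by decide)⟩)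
    (w 6) (decide_eq_true ⟨hne 0 6 (by decide), hne 1 6 (by decide), hne 2 6 (by decide),
      hne 3 6 (by decide), hne 4 6 (by decide), hne 5 6 (by decide), hl 0 1 2 6 (by decide), hl 0 1 3 6 (by decide),
      hl 0 1 4 6 (by decide), hl 0 1 5 6 (by decide), hl 0 2 3 6 (by decide), hl 0 2 4 6 (by decide), hl 0 2 5 6 (by decide), hl 0 3 4 6 (by decide), hl 0 3 5 6 (by decide),
      hl 0 4 5 6 (by decide), hl 1 2 3 6 (by decide), hl 1 2 4 6 (by decide), hl 1 2 5 6 (by decide), hl 1 3 4 6 (by decide), hl 1 3 5 6 (by decide), hl 1 4 5 6 (by decide),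
      hl 2 3 4 6 (by decide), hl 2 3 5 6 (by decide), hl 2 4 5 6 (by decide), hl 3 4 5 6 (by decide)⟩))
  have hr : ∃ p : Fin 7 → Fin 7, (∀ i, p (w i) = i) ∧ ∀ i j k l : Fin 6, i < j → j < k → k < l →
      (btwF p (v7 i) (v7 k) (v7 j) ↔ ¬ btwF p (v7 i) (v7 k) (v7 l)) := by
    rcases key with ⟨e1, e2, e3, e4, e5, e6⟩ | ⟨e1, e2, e3, e4, e5, e6⟩
    · refine ⟨fun u => u - w 0, fun i => ?_, cyc_add (w 0)⟩
      have hgen : ∀ s i : Fin 7, (s + i) - s = i := by decide
      fin_cases i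
      · exact sub_self (w 0)
      · change w 1 - w 0 = 1; rw [e1]; exact hgen _ _
      · change w 2 - w 0 = 2; rw [e2]; exact hgen _ _
      · change w 3 - w 0 = 3; rw [e3]; exact hgen _ _
      · change w 4 - w 0 = 4; rw [e4]; exact hgen _ _
      · change w 5 - w 0 = 5; rw [e5]; exact hgen _ _
      · change w 6 - w 0 = 6; rw [e6]; exact hgen _ _
    · refine ⟨fun u => w 0 - u, fun i => ?_, cyc_sub (w 0)⟩
      have hgen : ∀ s i : Fin 7, s - (s - i) = i := by decide
      fin_cases i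
      · exact sub_self (w 0)
      · change w 0 - w 1 = 1; rw [e1]; exact hgen _ _
      · change w 0 - w 2 = 2; rw [e2]; exact hgen _ _
      · change w 0 - w 3 = 3; rw [e3]; exact hgen _ _
      · change w 0 - w 4 = 4; rw [e4]; exact hgen _ _
      · change w 0 - w 5 = 5; rw [e5]; exact hgen _ _
      · change w 0 - w 6 = 6; rw [e6]; exact hgen _ _
  obtain ⟨p, hp, hc⟩ := hr
  have hlt : ∀ u v : Fin 7, x u < x v ↔ p u < p v := by
    intro u v
    have hu : w (w.symm u) = u := w.apply_symm_apply u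
    have hv : w (w.symm v) = v := w.apply_symm_apply v
    have h1 : p u = w.symm u := by
      have := hp (w.symm u)
      rwa [hu] at this
    have h2 : p v = w.symm v := by
      have := hp (w.symm v)
      rwa [hv] at this
    rw [h1, h2, ← hw.lt_iff_lt, Function.comp_apply, Function.comp_apply, hu, hv]
  have hbtw : ∀ a b c : Fin 7, Btw x a b c ↔ btwF p a b c := by
    intro a b c
    unfold Btw btwF
    rw [hlt, hlt, hlt, hlt]
  refine ⟨v7, by decide, fun i j k l hij hjk hkl => ?_, ?_, ?_, ?_, ?_, ?_, ?_, ?_⟩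
  · rw [hbtw, hbtw]
    exact hc i j k l hij hjk hkl
  all_goals rw [adj7_iff]; decide

end Pool.Agent.Confl
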