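import Pool.Agent.Confl.X.Swap

/-! # The counting argument -/

set_option autoImplicit false

open Set

namespace Pool.Agent.Confl

variable {V : Type}

/-- Components do not cross. -/
def NCr (S : Skel (Fin 6)) : Prop :=
  ∀ (T U : Set (Fin 6)) (f g : S.HV → S.HV), IsM S T f → IsM S U g → ∀ i j k l : Fin 6,
    i < j → j < k → k < l → Sup f g (Sum.inl i) (Sum.inl k) → Sup f g (Sum.inl j) (Sum.inl l) →
    Sup f g (Sum.inl i) (Sum.inl j)

/-- The union of the components of the terminals in `A`. -/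
def cA {S : Skel V} (f g : S.HV → S.HV) (A : Set V) : Set S.HV :=
  {y | ∃ a ∈ A, Sup f g (Sum.inl a) y}

theorem cA_closed {S : Skel V} {T U : Set V} {f g : S.HV → S.HV} (hf : IsM S T f)
    (hg : IsM S U g) (A : Set V) (z : S.HV) :
    (f z ∈ cA f g A ↔ z ∈ cA f g A) ∧ (g z ∈ cA f g A ↔ z ∈ cA f g A) := by
  have h := fun a => comp'_closed hf hg a z
  constructor
  · exact exists_congr fun a => and_congr_right fun _ => (h a).1
  · exact exists_congr fun a => and_congr_right fun _ => (h a).2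

/-- The terminals of the matching obtained by a swap. -/
def swT (T U : Set V) (R : V → V → Prop) (A : Set V) : Set V :=
  {v | (v ∈ T ∧ ¬ ∃ a ∈ A, R a v) ∨ (v ∈ U ∧ ∃ a ∈ A, R a v)}

/-- Terminals in the same component. -/
def RR {S : Skel V} (f g : S.HV → S.HV) : V → V → Prop :=
  fun i j => Sup f g (Sum.inl i) (Sum.inl j)

/-- Swap the components of the terminals in `A`. -/
noncomputable def Ph {S : Skel V} (A : Set V) (p : (S.HV → S.HV) × (S.HV → S.HV)) :
    (S.HV → S.HV) × (S.HV → S.HV) :=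
  (swp (cA p.1 p.2 A) p.1 p.2, swp (cA p.1 p.2 A) p.2 p.1)

theorem Ph_fst {S : Skel V} {T U : Set V} {p : (S.HV → S.HV) × (S.HV → S.HV)}
    (hf : IsM S T p.1) (hg : IsM S U p.2) (A : Set V) :
    IsM S (swT T U (RR p.1 p.2) A) (Ph A p).1 := by
  have h := hf.swp hg (cA_closed hf hg A)
  exact h

theorem Ph_snd {S : Skel V} {T U : Set V} {p : (S.HV → S.HV) × (S.HV → S.HV)}
    (hf : IsM S T p.1) (hg : IsM S U p.2) (A : Set V) :
    IsM S (swT U T (RR p.1 p.2) A) (Ph A p).2 := by
  have h := hg.swp hf (fun z => (cA_closed hf hg A z).symm)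
  exact h

theorem Ph_RR {S : Skel V} {T U : Set V} {p : (S.HV → S.HV) × (S.HV → S.HV)}
    (hf : IsM S T p.1) (hg : IsM S U p.2) (A : Set V) (x y : S.HV) :
    Sup (Ph A p).1 (Ph A p).2 x y ↔ Sup p.1 p.2 x y :=
  sup_swp (cA_closed hf hg A)

theorem Ph_Ph {S : Skel V} {T U : Set V} {p : (S.HV → S.HV) × (S.HV → S.HV)}
    (hf : IsM S T p.1) (hg : IsM S U p.2) (A : Set V) : Ph A (Ph A p) = p := by
  have hC : cA (Ph A p).1 (Ph A p).2 A = cA p.1 p.2 A := by
    ext y
    exact exists_congr fun a => and_congr_right fun _ => Ph_RR hf hg A _ _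
  refine Prod.ext ?_ ?_
  · show swp (cA (Ph A p).1 (Ph A p).2 A) (Ph A p).1 (Ph A p).2 = p.1
    rw [hC]
    funext x
    by_cases hx : x ∈ cA p.1 p.2 A <;> simp [Ph, swp, hx]
  · show swp (cA (Ph A p).1 (Ph A p).2 A) (Ph A p).2 (Ph A p).1 = p.2
    rw [hC]
    funext x
    by_cases hx : x ∈ cA p.1 p.2 A <;> simp [Ph, swp, hx]

theorem IsM.congr {S : Skel V} {T T' : Set V} {f : S.HV → S.HV} (h : IsM S T f)
    (hT : ∀ x, x ∈ T ↔ x ∈ T') : IsM S T' f := by
  rwa [Set.ext hT] at h

/-- Pairs of matchings. -/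
def PM (S : Skel V) (T U : Set V) : Set ((S.HV → S.HV) × (S.HV → S.HV)) :=
  {f | IsM S T f} ×ˢ {g | IsM S U g}

theorem Ph_injOn {S : Skel V} (T U A : Set V) : InjOn (Ph (S := S) A) (PM S T U) := by
  intro p hp q hq h
  rw [← Ph_Ph hp.1 hp.2 A, ← Ph_Ph hq.1 hq.2 A, h]

/-- Properties of the relation between the terminals of two matchings with disjoint sets of
terminals. -/
structure PR (T U : Set (Fin 6)) (R : Fin 6 → Fin 6 → Prop) : Prop where
  symm : ∀ {i j}, R i j → R j i
  trans : ∀ {i j k}, R i j → R j k → R i k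
  refl : ∀ i, R i i
  nc : ∀ {i j k l : Fin 6}, R i k → R j l → i < j → j < k → k < l → R i j
  ex : ∀ v, v ∈ T ∨ v ∈ U → ∃ w, (w ∈ T ∨ w ∈ U) ∧ w ≠ v ∧ R v w
  un : ∀ {v}, (v ∈ T ∨ v ∈ U) → ∀ {w z}, w ≠ v → z ≠ v → R v w → R v z → z = w

theorem pr_of {S : Skel (Fin 6)} [Finite S.J] (hnc : NCr S) {T U : Set (Fin 6)}
    {f g : S.HV → S.HV} (hf : IsM S T f) (hg : IsM S U g) (hd : ∀ v, v ∈ T → v ∉ U) :
    PR T U (RR f g) := by
  have hx : ∀ v, v ∈ T ∨ v ∈ U → (v ∈ T) ≠ (v ∈ U) := by
    intro v hv h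
    rcases hv with hv | hv
    · exact hd v hv (h ▸ hv)
    · exact hd v (h.symm ▸ hv) hv
  have hx' : ∀ v, (v ∈ T) ≠ (v ∈ U) → v ∈ T ∨ v ∈ U := by
    intro v h
    by_contra hc
    push Not at hc
    exact h (by simp [hc.1, hc.2])
  refine ⟨fun h => h.symm, fun h h' => h.trans _ _ _ h', fun i => .refl _, ?_, ?_, ?_⟩
  · intro i j k l h1 h2 hij hjk hkl
    exact hnc T U f g hf hg i j k l hij hjk hkl h1 h2
  · intro v hv
    obtain ⟨w, hw, hR, hD, -⟩ := term_partner hf hg (hx v hv)
    exact ⟨w, hx' w hD, hw, hR⟩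
  · intro v hv w z hw hz h1 h2
    obtain ⟨y, -, -, -, hu⟩ := term_partner hf hg (hx v hv)
    have hn : ∀ z : Fin 6, z ∉ T ∨ z ∉ U := by
      intro z
      by_cases h : z ∈ T
      · exact Or.inr (hd z h)
      · exact Or.inl h
    rw [hu z hz h2 (hn z), hu w hw h1 (hn w)]

theorem PR.cls {T U : Set (Fin 6)} {R : Fin 6 → Fin 6 → Prop} (h : PR T U R) {v w : Fin 6}
    (hv : v ∈ T ∨ v ∈ U) (hw : w ≠ v) (hR : R v w) (z : Fin 6) : R v z ↔ z = v ∨ z = w := by
  constructor
  · intro hz
    by_cases hzv : z = v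
    · exact Or.inl hzv
    · exact Or.inr (h.un hv hw hzv hR hz)
  · rintro (rfl | rfl)
    · exact h.refl _
    · exact hR

theorem swT_one {T U : Set (Fin 6)} {R : Fin 6 → Fin 6 → Prop} (h : PR T U R) {v w : Fin 6}
    (hv : v ∈ T ∨ v ∈ U) (hw : w ≠ v) (hR : R v w) (T' U' : Set (Fin 6)) :
    swT T' U' R {v} = {x | (x ∈ T' ∧ ¬ (x = v ∨ x = w)) ∨ (x ∈ U' ∧ (x = v ∨ x = w))} := by
  ext x
  simp only [swT, mem_ofPred_eq, mem_singleton_iff, exists_eq_left, h.cls hv hw hR]

theorem swT_two {T U : Set (Fin 6)} {R : Fin 6 → Fin 6 → Prop} (h : PR T U R) {v w a b : Fin 6}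
    (hv : v ∈ T ∨ v ∈ U) (hw : w ≠ v) (hR : R v w) (ha : a ∈ T ∨ a ∈ U) (hb : b ≠ a)
    (hR' : R a b) (T' U' : Set (Fin 6)) :
    swT T' U' R {v, a} = {x | (x ∈ T' ∧ ¬ (x = v ∨ x = w ∨ x = a ∨ x = b)) ∨
      (x ∈ U' ∧ (x = v ∨ x = w ∨ x = a ∨ x = b))} := by
  ext x
  simp only [swT, mem_ofPred_eq, mem_singleton_iff, mem_insert_iff, exists_eq_or_imp,
    exists_eq_left, h.cls hv hw hR, h.cls ha hb hR', or_assoc]

theorem comb2 {R : Fin 6 → Fin 6 → Prop} (h : PR {1, 3} {4, 5} R)
    (h14 : ∀ A, swT {4, 5} {1, 3} R A ≠ {1, 4}) : R 1 3 := by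
  obtain ⟨w, hD, hw, hR⟩ := h.ex 1 (by simp)
  have hD' : w = 1 ∨ w = 3 ∨ w = 4 ∨ w = 5 := by simpa [or_assoc] using hD
  rcases hD' with rfl | rfl | rfl | rfl
  · exact absurd rfl hw
  · exact hR
  · exfalso
    obtain ⟨w', hD', hw', hR'⟩ := h.ex 3 (by simp)
    have hD'' : w' = 1 ∨ w' = 3 ∨ w' = 4 ∨ w' = 5 := by simpa [or_assoc] using hD'
    have key := h.cls (v := 1) (by simp) hw hR
    rcases hD'' with rfl | rfl | rfl | rfl
    · exact absurd ((key 3).1 (h.symm hR')) (by decide)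
    · exact absurd rfl hw'
    · exact absurd ((key 3).1 (h.trans hR (h.symm hR'))) (by decide)
    · exact absurd ((key 3).1 (h.nc hR hR' (by decide) (by decide) (by decide))) (by decide)
  · exfalso
    refine h14 {1} ?_
    rw [swT_one h (by simp) hw hR]
    ext x
    simp only [mem_ofPred_eq, mem_insert_iff, mem_singleton_iff]
    revert x
    decide

theorem comb1 {R : Fin 6 → Fin 6 → Prop} (h : PR ∅ {0, 2, 4, 5} R)
    (h24 : ∀ A, swT ∅ {0, 2, 4, 5} R A ≠ {2, 4}) : R 0 2 := by
  obtain ⟨w, hD, hw, hR⟩ := h.ex 0 (by simp)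
  obtain ⟨w', hD', hw', hR'⟩ := h.ex 2 (by simp)
  have hD1 : w = 0 ∨ w = 2 ∨ w = 4 ∨ w = 5 := by simpa [or_assoc] using hD
  have hD2 : w' = 0 ∨ w' = 2 ∨ w' = 4 ∨ w' = 5 := by simpa [or_assoc] using hD'
  have key := h.cls (v := 0) (by simp) hw hR
  rcases hD1 with rfl | rfl | rfl | rfl
  · exact absurd rfl hw
  · exact hR
  · exfalso
    rcases hD2 with rfl | rfl | rfl | rfl
    · exact absurd ((key 2).1 (h.symm hR')) (by decide)
    · exact absurd rfl hw'
    · exact absurd ((key 2).1 (h.trans hR (h.symm hR'))) (by decide)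
    · exact absurd ((key 2).1 (h.nc hR hR' (by decide) (by decide) (by decide))) (by decide)
  · exfalso
    rcases hD2 with rfl | rfl | rfl | rfl
    · exact absurd ((key 2).1 (h.symm hR')) (by decide)
    · exact absurd rfl hw'
    · refine h24 {2} ?_
      rw [swT_one h (by simp) hw' hR']
      ext x
      simp only [mem_ofPred_eq, mem_insert_iff, mem_singleton_iff, mem_empty_iff_false]
      revert x
      decide
    · exact absurd ((key 2).1 (h.trans hR (h.symm hR'))) (by decide)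

theorem comb1' {R : Fin 6 → Fin 6 → Prop} (h : PR {0, 4} {2, 5} R)
    (h24 : ∀ A, swT {0, 4} {2, 5} R A ≠ {2, 4}) : R 0 5 := by
  obtain ⟨w, hD, hw, hR⟩ := h.ex 0 (by simp)
  obtain ⟨w', hD', hw', hR'⟩ := h.ex 2 (by simp)
  have hD1 : w = 0 ∨ w = 4 ∨ w = 2 ∨ w = 5 := by simpa [or_assoc] using hD
  have hD2 : w' = 0 ∨ w' = 4 ∨ w' = 2 ∨ w' = 5 := by simpa [or_assoc] using hD'
  have key := h.cls (v := 0) (by simp) hw hR
  rcases hD1 with rfl | rfl | rfl | rfl
  · exact absurd rfl hw
  · exfalso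
    rcases hD2 with rfl | rfl | rfl | rfl
    · exact absurd ((key 2).1 (h.symm hR')) (by decide)
    · exact absurd ((key 2).1 (h.trans hR (h.symm hR'))) (by decide)
    · exact absurd rfl hw'
    · exact absurd ((key 2).1 (h.nc hR hR' (by decide) (by decide) (by decide))) (by decide)
  · exfalso
    refine h24 {0} ?_
    rw [swT_one h (by simp) hw hR]
    ext x
    simp only [mem_ofPred_eq, mem_insert_iff, mem_singleton_iff]
    revert x
    decide
  · exact hR

theorem fin6 : ∀ w : Fin 6, w = 0 ∨ w = 1 ∨ w = 2 ∨ w = 3 ∨ w = 4 ∨ w = 5 := by decide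

theorem comb3 {R : Fin 6 → Fin 6 → Prop} (h : PR {0, 2} {1, 3, 4, 5} R)
    (h03 : ∀ A, swT {0, 2} {1, 3, 4, 5} R A ≠ {0, 3})
    (h15 : ∀ A, swT {0, 2} {1, 3, 4, 5} R A ≠ {1, 5}) : R 0 3 ∧ R 1 2 := by
  have hall : ∀ x : Fin 6, (x ∈ ({0, 2} : Set (Fin 6)) ∨ x ∈ ({1, 3, 4, 5} : Set (Fin 6))) := by
    intro x
    simp only [mem_insert_iff, mem_singleton_iff]
    revert x
    decide
  obtain ⟨w, hD, hw, hR⟩ := h.ex 0 (hall _)
  obtain ⟨w1, hD1, hw1, hR1⟩ := h.ex 1 (hall _)
  obtain ⟨w2, hD2, hw2, hR2⟩ := h.ex 2 (hall _)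
  have key := h.cls (v := 0) (hall _) hw hR
  have key1 := h.cls (v := 1) (hall _) hw1 hR1
  have key2 := h.cls (v := 2) (hall _) hw2 hR2
  have hf := fin6 w
  rcases hf with rfl | rfl | rfl | rfl | rfl | rfl
  · exact absurd rfl hw
  · -- `0` and `1` together
    exfalso
    have hf := fin6 w2
    rcases hf with rfl | rfl | rfl | rfl | rfl | rfl
    · exact absurd ((key 2).1 (h.symm hR2)) (by decide)
    · exact absurd ((key 2).1 (h.trans hR (h.symm hR2))) (by decide)
    · exact absurd rfl hw2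
    · refine h03 {2} ?_
      rw [swT_one h (hall _) hw2 hR2]
      ext x
      simp only [mem_ofPred_eq, mem_insert_iff, mem_singleton_iff]
      revert x
      decide
    · obtain ⟨w3, hD3, hw3, hR3⟩ := h.ex 3 (hall _)
      have hf := fin6 w3
      rcases hf with rfl | rfl | rfl | rfl | rfl | rfl
      · exact absurd ((key 3).1 (h.symm hR3)) (by decide)
      · exact absurd ((key 3).1 (h.trans hR (h.symm hR3))) (by decide)
      · exact absurd ((key2 3).1 (h.symm hR3)) (by decide)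
      · exact absurd rfl hw3
      · exact absurd ((key2 3).1 (h.trans hR2 (h.symm hR3))) (by decide)
      · exact absurd ((key2 3).1 (h.nc hR2 hR3 (by decide) (by decide) (by decide))) (by decide)
    · refine h15 {0, 2} ?_
      rw [swT_two h (hall _) hw hR (hall _) hw2 hR2]
      ext x
      simp only [mem_ofPred_eq, mem_insert_iff, mem_singleton_iff]
      revert x
      decide
  · exfalso
    have hf := fin6 w1
    rcases hf with rfl | rfl | rfl | rfl | rfl | rfl
    · exact absurd ((key 1).1 (h.symm hR1)) (by decide)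
    · exact absurd rfl hw1
    · exact absurd ((key 1).1 (h.trans hR (h.symm hR1))) (by decide)
    · exact absurd ((key 1).1 (h.nc hR hR1 (by decide) (by decide) (by decide))) (by decide)
    · exact absurd ((key 1).1 (h.nc hR hR1 (by decide) (by decide) (by decide))) (by decide)
    · exact absurd ((key 1).1 (h.nc hR hR1 (by decide) (by decide) (by decide))) (by decide)
  · refine ⟨hR, ?_⟩
    have hf := fin6 w1
    rcases hf with rfl | rfl | rfl | rfl | rfl | rfl
    · exact absurd ((key 1).1 (h.symm hR1)) (by decide)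
    · exact absurd rfl hw1
    · exact hR1
    · exact absurd ((key 1).1 (h.trans hR (h.symm hR1))) (by decide)
    · exact absurd ((key 1).1 (h.nc hR hR1 (by decide) (by decide) (by decide))) (by decide)
    · exact absurd ((key 1).1 (h.nc hR hR1 (by decide) (by decide) (by decide))) (by decide)
  · exfalso
    obtain ⟨w5, hD5, hw5, hR5⟩ := h.ex 5 (hall _)
    have hf := fin6 w5
    rcases hf with rfl | rfl | rfl | rfl | rfl | rfl
    · exact absurd ((key 5).1 (h.symm hR5)) (by decide)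
    · exact absurd ((key 1).1 (h.nc hR (h.symm hR5) (by decide) (by decide) (by decide)))
        (by decide)
    · exact absurd ((key 2).1 (h.nc hR (h.symm hR5) (by decide) (by decide) (by decide)))
        (by decide)
    · exact absurd ((key 3).1 (h.nc hR (h.symm hR5) (by decide) (by decide) (by decide)))
        (by decide)
    · exact absurd ((key 5).1 (h.trans hR (h.symm hR5))) (by decide)
    · exact absurd rfl hw5
  · exfalso
    have hf := fin6 w1
    rcases hf with rfl | rfl | rfl | rfl | rfl | rfl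
    · exact absurd ((key 1).1 (h.symm hR1)) (by decide)
    · exact absurd rfl hw1
    · refine h15 {0, 1} ?_
      rw [swT_two h (hall _) hw hR (hall _) hw1 hR1]
      ext x
      simp only [mem_ofPred_eq, mem_insert_iff, mem_singleton_iff]
      revert x
      decide
    · have hf := fin6 w2
      rcases hf with rfl | rfl | rfl | rfl | rfl | rfl
      · exact absurd ((key 2).1 (h.symm hR2)) (by decide)
      · exact absurd ((key1 2).1 (h.symm hR2)) (by decide)
      · exact absurd rfl hw2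
      · exact absurd ((key1 2).1 (h.trans hR1 (h.symm hR2))) (by decide)
      · exact absurd ((key1 2).1 (h.nc hR1 hR2 (by decide) (by decide) (by decide))) (by decide)
      · exact absurd ((key 2).1 (h.trans hR (h.symm hR2))) (by decide)
    · have hf := fin6 w2
      rcases hf with rfl | rfl | rfl | rfl | rfl | rfl
      · exact absurd ((key 2).1 (h.symm hR2)) (by decide)
      · exact absurd ((key1 2).1 (h.symm hR2)) (by decide)
      · exact absurd rfl hw2
      · refine h03 {2} ?_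
        rw [swT_one h (hall _) hw2 hR2]
        ext x
        simp only [mem_ofPred_eq, mem_insert_iff, mem_singleton_iff]
        revert x
        decide
      · exact absurd ((key1 2).1 (h.trans hR1 (h.symm hR2))) (by decide)
      · exact absurd ((key 2).1 (h.trans hR (h.symm hR2))) (by decide)
    · exact absurd ((key 1).1 (h.trans hR (h.symm hR1))) (by decide)

theorem ineq2 (S : Skel (Fin 6)) [Finite S.J] (hnc : NCr S) (h14 : ¬ ∃ f, IsM S {1, 4} f) :
    (PM S {1, 3} {4, 5}).ncard ≤ (PM S ∅ {1, 3, 4, 5}).ncard := by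
  have hfin : Finite (S.HV → S.HV) := inferInstance
  refine Set.ncard_le_ncard_of_injOn (Ph {1}) ?_ (Ph_injOn _ _ _) (Set.toFinite _)
  rintro p ⟨hf, hg⟩
  have h := pr_of hnc hf hg (by
    intro v
    simp only [mem_insert_iff, mem_singleton_iff]
    revert v
    decide)
  have h13 := comb2 h (fun A hA => h14 ⟨_, hA ▸ Ph_snd hf hg A⟩)
  constructor
  · have h1 := Ph_fst hf hg {1}
    rw [swT_one h (w := 3) (by simp) (by decide) h13] at h1
    exact h1.congr (by
        intro x
        simp only [mem_ofPred_eq, mem_insert_iff, mem_singleton_iff, mem_empty_iff_false]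
        revert x
        decide)
  · have h1 := Ph_snd hf hg {1}
    rw [swT_one h (w := 3) (by simp) (by decide) h13] at h1
    exact h1.congr (by
        intro x
        simp only [mem_ofPred_eq, mem_insert_iff, mem_singleton_iff]
        revert x
        decide)

theorem ineq3 (S : Skel (Fin 6)) [Finite S.J] (hnc : NCr S) (h03 : ¬ ∃ f, IsM S {0, 3} f)
    (h15 : ¬ ∃ f, IsM S {1, 5} f) :
    (PM S {0, 2} {1, 3, 4, 5}).ncard ≤ (PM S {1, 3} {0, 2, 4, 5}).ncard := by
  have hfin : Finite (S.HV → S.HV) := inferInstance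
  refine Set.ncard_le_ncard_of_injOn (Ph {0, 1}) ?_ (Ph_injOn _ _ _) (Set.toFinite _)
  rintro p ⟨hf, hg⟩
  have h := pr_of hnc hf hg (by
    intro v
    simp only [mem_insert_iff, mem_singleton_iff]
    revert v
    decide)
  obtain ⟨h1, h2⟩ := comb3 h (fun A hA => h03 ⟨_, hA ▸ Ph_fst hf hg A⟩)
    (fun A hA => h15 ⟨_, hA ▸ Ph_fst hf hg A⟩)
  constructor
  · have h3 := Ph_fst hf hg {0, 1}
    rw [swT_two h (w := 3) (b := 2) (by simp) (by decide) h1 (by simp) (by decide) h2] at h3
    exact h3.congr (by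
        intro x
        simp only [mem_ofPred_eq, mem_insert_iff, mem_singleton_iff]
        revert x
        decide)
  · have h3 := Ph_snd hf hg {0, 1}
    rw [swT_two h (w := 3) (b := 2) (by simp) (by decide) h1 (by simp) (by decide) h2] at h3
    exact h3.congr (by
        intro x
        simp only [mem_ofPred_eq, mem_insert_iff, mem_singleton_iff]
        revert x
        decide)

theorem ineq1 (S : Skel (Fin 6)) [Finite S.J] (hnc : NCr S) (h24 : ¬ ∃ f, IsM S {2, 4} f) :
    (PM S ∅ {0, 2, 4, 5}).ncard + (PM S {0, 4} {2, 5}).ncard ≤ (PM S {0, 2} {4, 5}).ncard := by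
  have hfin : Finite (S.HV → S.HV) := inferInstance
  have hA : ∀ p ∈ PM S ∅ {0, 2, 4, 5}, Ph {0} p ∈ PM S {0, 2} {4, 5} ∧
      RR (Ph {0} p).1 (Ph {0} p).2 0 2 := by
    rintro p ⟨hf, hg⟩
    have h := pr_of hnc hf hg (by
      intro v
      simp only [mem_insert_iff, mem_singleton_iff, mem_empty_iff_false]
      revert v
      decide)
    have h02 := comb1 h (fun A hA => h24 ⟨_, hA ▸ Ph_fst hf hg A⟩)
    refine ⟨⟨?_, ?_⟩, (Ph_RR hf hg _ _ _).2 h02⟩
    · have h1 := Ph_fst hf hg {0}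
      rw [swT_one h (w := 2) (by simp) (by decide) h02] at h1
      exact h1.congr (by
        intro x
        simp only [mem_ofPred_eq, mem_insert_iff, mem_singleton_iff, mem_empty_iff_false]
        revert x
        decide)
    · have h1 := Ph_snd hf hg {0}
      rw [swT_one h (w := 2) (by simp) (by decide) h02] at h1
      exact h1.congr (by
        intro x
        simp only [mem_ofPred_eq, mem_insert_iff, mem_singleton_iff, mem_empty_iff_false]
        revert x
        decide)
  have hB : ∀ p ∈ PM S {0, 4} {2, 5}, (Ph {0} p).swap ∈ PM S {0, 2} {4, 5} ∧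
      ¬ RR (Ph {0} p).swap.1 (Ph {0} p).swap.2 0 2 := by
    rintro p ⟨hf, hg⟩
    have h := pr_of hnc hf hg (by
      intro v
      simp only [mem_insert_iff, mem_singleton_iff]
      revert v
      decide)
    have h05 := comb1' h (fun A hA => h24 ⟨_, hA ▸ Ph_fst hf hg A⟩)
    refine ⟨⟨?_, ?_⟩, ?_⟩
    · have h1 := Ph_snd hf hg {0}
      rw [swT_one h (w := 5) (by simp) (by decide) h05] at h1
      exact h1.congr (by
        intro x
        simp only [mem_ofPred_eq, mem_insert_iff, mem_singleton_iff]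
        revert x
        decide)
    · have h1 := Ph_fst hf hg {0}
      rw [swT_one h (w := 5) (by simp) (by decide) h05] at h1
      exact h1.congr (by
        intro x
        simp only [mem_ofPred_eq, mem_insert_iff, mem_singleton_iff]
        revert x
        decide)
    · intro h02
      have h1 : RR p.1 p.2 0 2 := (Ph_RR hf hg {0} _ _).1 (sup_comm h02)
      exact absurd ((h.cls (v := 0) (by simp) (by decide) h05 2).1 h1) (by decide)
  have hsub : (Ph {0} '' PM S ∅ {0, 2, 4, 5}) ∪ ((fun p => (Ph {0} p).swap) '' PM S {0, 4} {2, 5})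
      ⊆ PM S {0, 2} {4, 5} := by
    rintro q (⟨p, hp, rfl⟩ | ⟨p, hp, rfl⟩)
    · exact (hA p hp).1
    · exact (hB p hp).1
  have hdis : Disjoint (Ph {0} '' PM S ∅ {0, 2, 4, 5})
      ((fun p => (Ph {0} p).swap) '' PM S {0, 4} {2, 5}) := by
    rw [Set.disjoint_left]
    rintro q ⟨p, hp, rfl⟩ ⟨p', hp', he⟩
    have h1 := (hB p' hp').2
    have h2 := (hA p hp).2
    rw [show (Ph {0} p').swap = Ph {0} p from he] at h1
    exact h1 h2
  have h1 := Set.ncard_le_ncard hsub (Set.toFinite _)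
  rw [Set.ncard_union_eq hdis (Set.toFinite _) (Set.toFinite _),
    (Ph_injOn _ _ _).ncard_image, Set.InjOn.ncard_image] at h1
  · exact h1
  · intro p hp q hq h
    exact Ph_injOn _ _ _ hp hq (Prod.swap_injective h)

theorem count_main (S : Skel (Fin 6)) [Finite S.J] (hnc : NCr S)
    (h03 : ¬ ∃ f, IsM S {0, 3} f) (h14 : ¬ ∃ f, IsM S {1, 4} f) (h15 : ¬ ∃ f, IsM S {1, 5} f)
    (h24 : ¬ ∃ f, IsM S {2, 4} f) (e13 : ∃ f, IsM S {1, 3} f) (e04 : ∃ f, IsM S {0, 4} f)
    (e25 : ∃ f, IsM S {2, 5} f) : False := by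
  have hfin : Finite (S.HV → S.HV) := inferInstance
  have i1 := ineq1 S hnc h24
  have i2 := ineq2 S hnc h14
  have i3 := ineq3 S hnc h03 h15
  have hpos : ∀ T, (∃ f, IsM S T f) → 0 < {f : S.HV → S.HV | IsM S T f}.ncard := by
    rintro T ⟨f, hf⟩
    exact (Set.ncard_pos (Set.toFinite _)).2 ⟨f, hf⟩
  have p1 := hpos _ e13
  have p2 := hpos _ e04
  have p3 := hpos _ e25
  simp only [PM, Set.ncard_prod] at i1 i2 i3
  generalize {f : S.HV → S.HV | IsM S {1, 3} f}.ncard = z13 at *
  generalize {f : S.HV → S.HV | IsM S {0, 4} f}.ncard = z04 at *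
  generalize {f : S.HV → S.HV | IsM S {2, 5} f}.ncard = z25 at *
  generalize {f : S.HV → S.HV | IsM S ∅ f}.ncard = z at *
  generalize {f : S.HV → S.HV | IsM S {0, 2} f}.ncard = z02 at *
  generalize {f : S.HV → S.HV | IsM S {4, 5} f}.ncard = z45 at *
  generalize {f : S.HV → S.HV | IsM S {0, 2, 4, 5} f}.ncard = z0245 at *
  generalize {f : S.HV → S.HV | IsM S {1, 3, 4, 5} f}.ncard = z1345 at *
  have h1 : z13 * (z * z0245 + z04 * z25) ≤ z13 * (z02 * z45) := Nat.mul_le_mul_left _ i1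
  have h2 : z02 * (z13 * z45) ≤ z02 * (z * z1345) := Nat.mul_le_mul_left _ i2
  have h3 : z * (z02 * z1345) ≤ z * (z13 * z0245) := Nat.mul_le_mul_left _ i3
  have h4 : 0 < z13 * (z04 * z25) := by positivity
  nlinarith

end Pool.Agent.Confl
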