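import Pool.Agent.Confl.X.Defs

/-! # Smooth paths from matchings -/

set_option autoImplicit false

open Set

namespace Pool.Agent.Confl

variable {V : Type}

private theorem xp_stem_stem (S : Skel V) (x : S.HV) : S.stem (S.stem x) = x := by
  rcases x with v | ⟨j, s⟩
  · rfl
  · simp [Skel.stem]

private def xpSeq (S : Skel V) (f : S.HV → S.HV) (u : V) : ℕ → S.HV
  | 0 => Sum.inl u
  | n + 1 => if n % 2 = 0 then f (xpSeq S f u n) else S.stem (xpSeq S f u n)

private theorem xp_even {S : Skel V} {f : S.HV → S.HV} {u : V} {n : ℕ} (h : n % 2 = 0) :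
    xpSeq S f u (n + 1) = f (xpSeq S f u n) := by
  rw [xpSeq, if_pos h]

private theorem xp_odd {S : Skel V} {f : S.HV → S.HV} {u : V} {n : ℕ} (h : n % 2 = 1) :
    xpSeq S f u (n + 1) = S.stem (xpSeq S f u n) := by
  rw [xpSeq, if_neg (by omega)]

private theorem xp_even' {S : Skel V} {f : S.HV → S.HV} (hf : ∀ x, f (f x) = x) {u : V} {n : ℕ}
    (h : n % 2 = 0) : xpSeq S f u n = f (xpSeq S f u (n + 1)) := by
  rw [xp_even h, hf]

private theorem xp_odd' {S : Skel V} {f : S.HV → S.HV} {u : V} {n : ℕ}
    (h : n % 2 = 1) : xpSeq S f u n = S.stem (xpSeq S f u (n + 1)) := by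
  rw [xp_odd h, xp_stem_stem]

/-- same parity: go back -/
private theorem xp_back {S : Skel V} {f : S.HV → S.HV} (hf : ∀ x, f (f x) = x) {u : V} (a b : ℕ)
    (hab : a % 2 = b % 2) (h : xpSeq S f u (a + 1) = xpSeq S f u (b + 1)) :
    xpSeq S f u a = xpSeq S f u b := by
  rcases Nat.mod_two_eq_zero_or_one a with h0 | h1
  · exact (xp_even' hf h0).trans ((congrArg f h).trans (xp_even' hf (by omega)).symm)
  · exact (xp_odd' h1).trans ((congrArg S.stem h).trans (xp_odd' (by omega)).symm)

private theorem xp_back_all {S : Skel V} {f : S.HV → S.HV} (hf : ∀ x, f (f x) = x) {u : V}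
    (c a : ℕ) (hc : c % 2 = 0) (h : xpSeq S f u a = xpSeq S f u (a + c)) :
    xpSeq S f u 0 = xpSeq S f u c := by
  induction a with
  | zero => rw [zero_add] at h; exact h
  | succ a ih =>
    apply ih
    apply xp_back hf _ _ (by omega)
    rw [h]
    congr 1
    omega

/-- different parity: go inward -/
private theorem xp_in {S : Skel V} {f : S.HV → S.HV} (hf : ∀ x, f (f x) = x) {u : V} (a b : ℕ)
    (hab : (a + b) % 2 = 0) (h : xpSeq S f u a = xpSeq S f u (b + 1)) :
    xpSeq S f u (a + 1) = xpSeq S f u b := by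
  rcases Nat.mod_two_eq_zero_or_one a with h0 | h1
  · rw [xp_even h0, h, ← xp_even' hf (by omega)]
  · rw [xp_odd h1, h, ← xp_odd' (by omega)]

theorem exists_path_of_isM [Finite V] {S : Skel V} [Finite S.J] {u v : V} (huv : u ≠ v)
    {f : S.HV → S.HV} (h : IsM S {u, v} f) : ∃ p, S.IsSmoothPath u v p := by
  classical
  have hf := h.inv
  set x := xpSeq S f u with hx
  have hx0 : x 0 = Sum.inl u := rfl
  -- some odd term is a terminal
  have hex : ∃ k, ∃ w, x (2 * k + 1) = Sum.inl w := by
    by_contra hcon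
    push Not at hcon
    obtain ⟨k, l, hkl, hxx⟩ := Finite.exists_ne_map_eq_of_infinite (fun k : ℕ => x (2 * k + 1))
    have key : ∀ k l : ℕ, k < l → x (2 * k + 1) = x (2 * l + 1) → False := by
      intro k l hkl hxx
      have h1 : x (2 * k + 1) = x (2 * k + 1 + 2 * (l - k)) := by
        rw [hxx]; congr 1; omega
      have h2 := xp_back_all hf (2 * (l - k)) (2 * k + 1) (by omega) h1
      obtain ⟨m, hm⟩ : ∃ m, l - k = m + 1 := ⟨l - k - 1, by omega⟩
      rw [hm, show 2 * (m + 1) = (2 * m + 1) + 1 by ring, xp_odd (by omega)] at h2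
      have h3 : x (2 * m + 1) = Sum.inl u := by
        have := congrArg S.stem h2
        rw [xp_stem_stem] at this
        exact this.symm
      exact hcon m u h3
    rcases lt_or_gt_of_ne hkl with h1 | h1
    · exact key k l h1 hxx
    · exact key l k h1 hxx.symm
  obtain ⟨w, hw⟩ := Nat.find_spec hex
  have hmin : ∀ i, i < Nat.find hex → ∃ j s, x (2 * i + 1) = Sum.inr (j, s) := by
    intro i hi
    have := Nat.find_min hex hi
    push Not at this
    rcases hxi : x (2 * i + 1) with w | ⟨j, s⟩
    · exact absurd hxi (this w)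
    · exact ⟨j, s, rfl⟩
  generalize Nat.find hex = K at hw hmin
  have hev : ∀ i, i < K → ∃ j s, x (2 * i + 1) = Sum.inr (j, s) ∧ x (2 * i + 2) = Sum.inr (j, !s) := by
    intro i hi
    obtain ⟨j, s, hjs⟩ := hmin i hi
    refine ⟨j, s, hjs, ?_⟩
    have : x (2 * i + 1 + 1) = S.stem (x (2 * i + 1)) := xp_odd (by omega)
    rw [this, hjs]
    rfl
  have hune : f (Sum.inl u) ≠ Sum.inl u := (h.term u).2 (by simp)
  -- consecutive terms differ
  have hA : ∀ a, a ≤ 2 * K → x a ≠ x (a + 1) := by
    intro a ha heq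
    rcases Nat.mod_two_eq_zero_or_one a with h0 | h1
    · have e1 : x (a + 1) = f (x a) := xp_even h0
      rcases Nat.eq_zero_or_pos a with rfl | hpos
      · rw [e1, hx0] at heq
        exact hune heq.symm
      · obtain ⟨j, s, -, h2⟩ := hev (a / 2 - 1) (by omega)
        rw [show 2 * (a / 2 - 1) + 2 = a by omega] at h2
        rw [e1, h2] at heq
        exact h.int _ _ heq.symm
    · have e1 : x (a + 1) = S.stem (x a) := xp_odd h1
      obtain ⟨j, s, h2, -⟩ := hev (a / 2) (by omega)
      rw [show 2 * (a / 2) + 1 = a by omega] at h2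
      rw [e1, h2] at heq
      simp [Skel.stem] at heq
  have hB : ∀ n a, (n % 2 = 1) → a + n ≤ 2 * K + 1 → x a ≠ x (a + n) := by
    intro n
    induction n using Nat.strong_induction_on with
    | _ n ih =>
      intro a hn hle heq
      rcases Nat.lt_or_ge 1 n with h1 | h1
      · have e : x (a + 1) = x (a + n - 1) := by
          apply xp_in hf a (a + n - 1) (by omega)
          rw [show a + n - 1 + 1 = a + n by omega]
          exact heq
        refine ih (n - 2) (by omega) (a + 1) (by omega) (by omega) ?_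
        rw [e]
        congr 1
        omega
      · obtain rfl : n = 1 := by omega
        exact hA a (by omega) heq
  have hC : ∀ n a, (n % 2 = 0) → 0 < n → a + n ≤ 2 * K + 1 → x a ≠ x (a + n) := by
    intro n a hn hn0 hle heq
    have h1 := xp_back_all hf n a hn heq
    obtain ⟨j, s, -, h2⟩ := hev (n / 2 - 1) (by omega)
    rw [show 2 * (n / 2 - 1) + 2 = n by omega] at h2
    change x 0 = x n at h1
    rw [h2, hx0] at h1
    simp at h1
  have hD : ∀ a b, a < b → b ≤ 2 * K + 1 → x a ≠ x b := by
    intro a b hab hb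
    obtain ⟨n, rfl⟩ : ∃ n, b = a + n := ⟨b - a, by omega⟩
    rcases Nat.mod_two_eq_zero_or_one n with h0 | h1
    · exact hC n a h0 (by omega) hb
    · exact hB n a h1 hb
  -- the end is `v`
  have hwv : w = v := by
    have h1 : f (Sum.inl w) = x (2 * K) := by
      rw [← hw]
      exact (xp_even' hf (by omega)).symm
    have h2 : f (Sum.inl w) ≠ Sum.inl w := by
      rw [h1, ← hw]
      exact hA _ le_rfl
    have h3 := (h.term w).1 h2
    rcases h3 with rfl | h3
    · exfalso
      have h4 : x 0 ≠ x (2 * K + 1) := hD 0 _ (by omega) le_rfl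
      rw [hw, hx0] at h4
      exact h4 rfl
    · exact h3
  subst hwv
  have hdart : ∀ i, i ≤ K → ∃ d : S.Dart, S.at d.1 d.2 = x (2 * i) ∧ S.at d.1 (!d.2) = x (2 * i + 1) := by
    intro i hi
    have e1 : x (2 * i + 1) = f (x (2 * i)) := xp_even (by omega)
    have h1 : f (x (2 * i)) ≠ x (2 * i) := by
      rw [← e1]
      exact (hA _ (by omega)).symm
    obtain ⟨-, ⟨a, b, hab1, hab2⟩ | hst⟩ := h.adj _ h1
    · exact ⟨(a, b), hab1, by rw [e1]; exact hab2⟩
    · exfalso
      rw [← e1] at hst
      rcases Nat.eq_zero_or_pos i with rfl | hpos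
      · apply hA 0 (by omega)
        change x 0 = x (2 * 0 + 1)
        rw [hst]
        rfl
      · have e2 : x (2 * i - 1) = S.stem (x (2 * i - 1 + 1)) := xp_odd' (by omega)
        rw [show 2 * i - 1 + 1 = 2 * i by omega, ← hst] at e2
        exact hD (2 * i - 1) (2 * i + 1) (by omega) (by omega) e2
  obtain ⟨d0, -⟩ := hdart 0 (by omega)
  have hdart' : ∀ i, ∃ d : S.Dart, i ≤ K →
      (S.at d.1 d.2 = x (2 * i) ∧ S.at d.1 (!d.2) = x (2 * i + 1)) := by
    intro i
    by_cases hi : i ≤ K
    · obtain ⟨d, hd⟩ := hdart i hi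
      exact ⟨d, fun _ => hd⟩
    · exact ⟨d0, fun h => absurd h hi⟩
  choose d hd using hdart'
  have at_inl : ∀ (a : S.A) (b : Bool) (w : V), S.at a b = Sum.inl w → S.ep a b = Sum.inl w := by
    intro a b w h
    unfold Skel.at at h
    rcases he : S.ep a b with w' | j
    · rw [he] at h
      simpa using h
    · rw [he] at h
      simp at h
  have at_inr : ∀ (a : S.A) (b : Bool) (j : S.J) (s : Bool), S.at a b = Sum.inr (j, s) →
      S.ep a b = Sum.inr j ∧ S.dir a b = s := by
    intro a b j s h
    unfold Skel.at at h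
    rcases he : S.ep a b with w' | j'
    · rw [he] at h
      simp at h
    · rw [he] at h
      simp only [Sum.inr.injEq, Prod.mk.injEq] at h
      exact ⟨by rw [h.1], h.2⟩
  have hheadK : S.head (d K) = Sum.inl w := at_inl _ _ _ ((hd K le_rfl).2.trans hw)
  have hhead : ∀ i, i < K → ∃ j s, x (2 * i + 1) = Sum.inr (j, s) ∧
      x (2 * i + 2) = Sum.inr (j, !s) ∧ S.head (d i) = Sum.inr j ∧ S.dir (d i).1 (!(d i).2) = s := by
    intro i hi
    obtain ⟨j, s, h1, h2⟩ := hev i hi
    obtain ⟨h3, h4⟩ := at_inr _ _ _ _ ((hd i hi.le).2.trans h1)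
    exact ⟨j, s, h1, h2, h3, h4⟩
  refine ⟨(List.range (K + 1)).map d, ?_, ?_, ?_, ?_⟩
  · rw [List.head?_map, List.head?_range]
    simp only [Nat.add_eq_zero_iff, one_ne_zero, and_false, if_false, Option.map_some]
    exact congrArg some (at_inl _ _ _ ((hd 0 (by omega)).1.trans hx0))
  · rw [List.getLast?_map, List.getLast?_range]
    simp only [Nat.add_eq_zero_iff, one_ne_zero, and_false, if_false, Option.map_some,
      Nat.add_sub_cancel]
    exact congrArg some hheadK
  · rw [List.isChain_map]
    rw [List.isChain_iff_getElem]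
    intro i hi
    rw [List.length_range] at hi
    simp only [List.getElem_range]
    have hiK : i < K := by omega
    obtain ⟨j, s, h1, h2, h3, h4⟩ := hhead i hiK
    obtain ⟨h5, h6⟩ := at_inr _ _ _ _ ((hd (i + 1) (by omega)).1.trans
      (show x (2 * (i + 1)) = _ from h2))
    refine ⟨j, h3, h5, ?_⟩
    rw [h4, h6]
    cases s <;> simp
  · rw [List.map_map]
    refine List.Nodup.map_on ?_ List.nodup_range
    have key : ∀ i l, i < l → l ≤ K → S.head (d i) ≠ S.head (d l) := by
      intro i l hil hl heq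
      obtain ⟨j, s, h1, h2, h3, h4⟩ := hhead i (by omega)
      rcases Nat.lt_or_ge l K with hlK | hlK
      · obtain ⟨j', s', h1', h2', h3', h4'⟩ := hhead l hlK
        rw [h3, h3', Sum.inr.injEq] at heq
        subst heq
        by_cases hs : s = s'
        · subst hs
          exact hD (2 * i + 1) (2 * l + 1) (by omega) (by omega) (h1.trans h1'.symm)
        · have hs' : s = !s' := by
            cases s <;> cases s' <;> simp_all
          rcases Nat.lt_or_ge (2 * l + 2) (2 * K + 2) with h7 | h7
          · refine hD (2 * i + 1) (2 * l + 2) (by omega) (by omega) ?_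
            rw [h1, h2', hs']
          · omega
      · obtain rfl : l = K := by omega
        rw [h3, hheadK] at heq
        simp at heq
    intro a ha b hb hab
    rw [List.mem_range] at ha hb
    by_contra hne
    rcases lt_or_gt_of_ne hne with h1 | h1
    · exact key a b h1 (by omega) hab
    · exact key b a h1 (by omega) hab.symm

end Pool.Agent.Confl
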