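import Pool.Agent.Confl.X.Defs

/-! # Components of the superposition of two involutions -/

set_option autoImplicit false

open Set

namespace Pool.Agent.Confl

variable {W : Type}

theorem sup_comm {f g : W → W} {x y : W} (h : Sup f g x y) : Sup g f x y := by
  have h' : (fun x y => y = g x ∨ y = f x) = fun x y => y = f x ∨ y = g x := by
    funext a b
    rw [or_comm]
  unfold Sup at *
  rw [h']
  exact h

/-- Swapping on a union of components does not change the components. -/
theorem sup_swp {f g : W → W} {C : Set W} {x y : W}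
    (hC : ∀ z, (f z ∈ C ↔ z ∈ C) ∧ (g z ∈ C ↔ z ∈ C)) :
    Sup (swp C f g) (swp C g f) x y ↔ Sup f g x y := by
  have h : (fun x y => y = swp C f g x ∨ y = swp C g f x) = fun x y => y = f x ∨ y = g x := by
    funext a b
    unfold swp
    by_cases ha : a ∈ C
    · rw [if_pos ha, if_pos ha, or_comm]
    · rw [if_neg ha, if_neg ha]
  unfold Sup
  rw [h]

/-- a set which is closed under both involutions contains the component -/
theorem sup_mem_iff {f g : W → W} {C : Set W} (hf : ∀ z, f z ∈ C ↔ z ∈ C)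
    (hg : ∀ z, g z ∈ C ↔ z ∈ C) {x y : W} (h : Sup f g x y) : x ∈ C ↔ y ∈ C := by
  unfold Sup at h
  induction h with
  | rel a b h =>
    rcases h with rfl | rfl
    · exact (hf a).symm
    · exact (hg a).symm
  | refl a => exact Iff.rfl
  | symm a b _ ih => exact ih.symm
  | trans a b c _ _ ih1 ih2 => exact ih1.trans ih2

theorem sup_partner_aux [Finite W] {f g : W → W} (hf : ∀ x, f (f x) = x)
    (hg : ∀ x, g (g x) = x) {x : W} (hgx : g x = x) (hfx : f x ≠ x) :
    ∃ y, y ≠ x ∧ Sup f g x y ∧ (f y = y) ≠ (g y = y) ∧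
      ∀ z, z ≠ x → Sup f g x z → (f z = z ∨ g z = z) → z = y := by
  obtain ⟨F, hF⟩ : ∃ F : Equiv.Perm W, ∀ z, F z = f z :=
    ⟨Function.Involutive.toPerm f hf, fun z => rfl⟩
  obtain ⟨G, hG⟩ : ∃ G : Equiv.Perm W, ∀ z, G z = g z :=
    ⟨Function.Involutive.toPerm g hg, fun z => rfl⟩
  have hFF : F * F = 1 := by
    ext z
    rw [Equiv.Perm.mul_apply, hF, hF, hf, Equiv.Perm.one_apply]
  have hGG : G * G = 1 := by
    ext z
    rw [Equiv.Perm.mul_apply, hG, hG, hg, Equiv.Perm.one_apply]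
  obtain ⟨s, hs⟩ : ∃ s : Equiv.Perm W, s = G * F := ⟨_, rfl⟩
  have hconj : ∀ k : ℤ, G * s ^ k = s ^ (-k) * G := by
    intro k
    have h1 : G * s * G⁻¹ = s⁻¹ := by
      rw [hs, mul_inv_rev, ← mul_assoc, hGG, one_mul]
      rw [eq_comm, inv_eq_of_mul_eq_one_right hFF]
    have h2 : (G * s * G⁻¹) ^ k = G * s ^ k * G⁻¹ := conj_zpow
    rw [h1] at h2
    rw [zpow_neg, ← inv_zpow, h2, inv_mul_cancel_right]
  have hgk : ∀ k : ℤ, g ((s ^ k) x) = (s ^ (-k)) x := by
    intro k
    have h1 := congrArg (fun p : Equiv.Perm W => p x) (hconj k)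
    simp only [Equiv.Perm.mul_apply, hG, hgx] at h1
    exact h1
  have hfk : ∀ k : ℤ, f ((s ^ k) x) = (s ^ (-k - 1)) x := by
    intro k
    have h1 : F = G * s := by
      rw [hs, ← mul_assoc, hGG, one_mul]
    have h2 : F ((s ^ k) x) = g ((s ^ (k + 1)) x) := by
      rw [h1, Equiv.Perm.mul_apply, hG, add_comm k 1, zpow_add, zpow_one, Equiv.Perm.mul_apply]
    rw [hF, hgk] at h2
    rw [h2]
    congr 2
    ring
  obtain ⟨m, hm⟩ : ∃ m : ℕ, m = Function.minimalPeriod (s • ·) x := ⟨_, rfl⟩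
  have hper : ∀ k : ℤ, (s ^ k) x = x ↔ (m : ℤ) ∣ k := by
    intro k
    rw [hm]
    exact MulAction.zpow_smul_eq_iff_minimalPeriod_dvd (a := s) (b := x) (n := k)
  have hper2 : ∀ j k : ℤ, (s ^ j) x = (s ^ k) x ↔ (m : ℤ) ∣ j - k := by
    intro j k
    rw [← hper, sub_eq_neg_add, zpow_add, zpow_neg, Equiv.Perm.mul_apply,
      Equiv.Perm.inv_eq_iff_eq]
  have hmpos : 0 < m := by
    rw [hm]
    apply Function.minimalPeriod_pos_of_mem_periodicPts
    exact (s.injective).mem_periodicPts x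
  have hm1 : m ≠ 1 := by
    intro h1
    apply hfx
    have h2 := hfk 0
    rw [zpow_zero, Equiv.Perm.one_apply] at h2
    rw [h2, hper, h1]
    exact one_dvd _
  have hCf : ∀ z, f z ∈ {z | ∃ k : ℤ, (s ^ k) x = z} ↔ z ∈ {z | ∃ k : ℤ, (s ^ k) x = z} := by
    intro z
    constructor
    · rintro ⟨k, hk⟩
      exact ⟨-k - 1, by rw [← hfk, hk, hf]⟩
    · rintro ⟨k, rfl⟩
      exact ⟨-k - 1, (hfk k).symm⟩
  have hCg : ∀ z, g z ∈ {z | ∃ k : ℤ, (s ^ k) x = z} ↔ z ∈ {z | ∃ k : ℤ, (s ^ k) x = z} := by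
    intro z
    constructor
    · rintro ⟨k, hk⟩
      exact ⟨-k, by rw [← hgk, hk, hg]⟩
    · rintro ⟨k, rfl⟩
      exact ⟨-k, (hgk k).symm⟩
  have hsup : ∀ k : ℕ, Sup f g x ((s ^ (k : ℤ)) x) := by
    intro k
    induction k with
    | zero => exact Relation.EqvGen.refl _
    | succ k ih =>
      have h1 : (s ^ ((k + 1 : ℕ) : ℤ)) x = g (f ((s ^ (k : ℤ)) x)) := by
        push_cast
        rw [add_comm, zpow_add, zpow_one, Equiv.Perm.mul_apply, hs, Equiv.Perm.mul_apply, hG, hF]
      rw [h1]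
      refine Relation.EqvGen.trans _ _ _ ih (Relation.EqvGen.trans _ (f ((s ^ (k : ℤ)) x)) _ ?_ ?_)
      · exact Relation.EqvGen.rel _ _ (Or.inl rfl)
      · exact Relation.EqvGen.rel _ _ (Or.inr rfl)
  rcases Nat.even_or_odd m with ⟨r, hr⟩ | ⟨r, hr⟩
  · refine ⟨(s ^ (r : ℤ)) x, ?_, hsup r, ?_, ?_⟩
    · intro h
      rw [hper] at h
      have h1 := Int.le_of_dvd (by omega) h
      omega
    · have h1 : g ((s ^ (r : ℤ)) x) = (s ^ (r : ℤ)) x := by
        rw [hgk, hper2]
        exact ⟨-1, by rw [hr]; push_cast; ring⟩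
      have h2 : f ((s ^ (r : ℤ)) x) ≠ (s ^ (r : ℤ)) x := by
        rw [hfk, Ne, hper2]
        rintro ⟨c, hc⟩
        rw [hr] at hc
        push_cast at hc
        have h3 : (2 : ℤ) ∣ 1 := ⟨-(r : ℤ) - r * c, by linear_combination -hc⟩
        omega
      intro h3
      exact h2 (h3.mpr h1)
    · rintro z hzx hz hfg
      have hzC := (sup_mem_iff hCf hCg hz).1 ⟨0, by rw [zpow_zero, Equiv.Perm.one_apply]⟩
      obtain ⟨k, rfl⟩ := hzC
      rw [hper2]
      rcases hfg with hfg | hfg
      · exfalso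
        rw [hfk, hper2] at hfg
        obtain ⟨c, hc⟩ := hfg
        rw [hr] at hc
        push_cast at hc
        have h3 : (2 : ℤ) ∣ 1 := ⟨-k - r * c, by linear_combination -hc⟩
        omega
      · rw [hgk, hper2] at hfg
        obtain ⟨c, hc⟩ := hfg
        rw [hr] at hc
        push_cast at hc
        have h3 : k = -(r : ℤ) * c := by linarith [hc]
        rw [Ne, hper] at hzx
        rcases Int.even_or_odd c with ⟨e, he⟩ | ⟨e, he⟩
        · exfalso
          apply hzx
          refine ⟨-e, ?_⟩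
          rw [h3, he, hr]
          push_cast
          ring
        · refine ⟨-e - 1, ?_⟩
          rw [h3, he, hr]
          push_cast
          ring
  · refine ⟨(s ^ (r : ℤ)) x, ?_, hsup r, ?_, ?_⟩
    · intro h
      rw [hper] at h
      have h1 := Int.le_of_dvd (by omega) h
      omega
    · have h1 : f ((s ^ (r : ℤ)) x) = (s ^ (r : ℤ)) x := by
        rw [hfk, hper2]
        exact ⟨-1, by rw [hr]; push_cast; ring⟩
      have h2 : g ((s ^ (r : ℤ)) x) ≠ (s ^ (r : ℤ)) x := by
        rw [hgk, Ne, hper2]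
        intro h3
        have h4 : (m : ℤ) ∣ 1 := by
          have h5 : (1 : ℤ) = m + (-(r : ℤ) - r) := by
            rw [hr]
            push_cast
            ring
          rw [h5]
          exact dvd_add (dvd_refl _) h3
        have h6 := Int.le_of_dvd one_pos h4
        omega
      intro h3
      exact h2 (h3.mp h1)
    · rintro z hzx hz hfg
      have hzC := (sup_mem_iff hCf hCg hz).1 ⟨0, by rw [zpow_zero, Equiv.Perm.one_apply]⟩
      obtain ⟨k, rfl⟩ := hzC
      rw [Ne, hper] at hzx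
      have hcop : IsCoprime (m : ℤ) 2 := by
        refine ⟨1, -(r : ℤ), ?_⟩
        rw [hr]
        push_cast
        ring
      rw [hper2]
      rcases hfg with hfg | hfg
      · rw [hfk, hper2] at hfg
        refine hcop.dvd_of_dvd_mul_left ?_
        have h5 : 2 * (k - (r : ℤ)) = -(-k - 1 - k) - m := by
          rw [hr]
          push_cast
          ring
        rw [h5]
        exact dvd_sub ((dvd_neg).2 hfg) (dvd_refl _)
      · exfalso
        apply hzx
        rw [hgk, hper2] at hfg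
        refine hcop.dvd_of_dvd_mul_left ?_
        have h5 : 2 * k = -(-k - k) := by ring
        rw [h5]
        exact (dvd_neg).2 hfg

/-- A component containing a point fixed by exactly one of the two involutions contains exactly one
other fixed point. -/
theorem sup_partner [Finite W] {f g : W → W} (hf : ∀ x, f (f x) = x) (hg : ∀ x, g (g x) = x)
    {x : W} (hx : (f x = x) ≠ (g x = x)) :
    ∃ y, y ≠ x ∧ Sup f g x y ∧ (f y = y) ≠ (g y = y) ∧
      ∀ z, z ≠ x → Sup f g x z → (f z = z ∨ g z = z) → z = y := by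
  by_cases hgx : g x = x
  · refine sup_partner_aux hf hg hgx fun h => hx ?_
    rw [eq_iff_iff]
    exact ⟨fun _ => hgx, fun _ => h⟩
  · have hfx : f x = x := by
      by_contra h
      apply hx
      rw [eq_iff_iff]
      exact ⟨fun h1 => absurd h1 h, fun h1 => absurd h1 hgx⟩
    obtain ⟨y, h1, h2, h3, h4⟩ := sup_partner_aux hg hf hfx hgx
    exact ⟨y, h1, sup_comm h2, fun h => h3 h.symm, fun z hz hz2 hz3 =>
      h4 z hz (sup_comm hz2) hz3.symm⟩

end Pool.Agent.Confl
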