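import Pool.Agent.Confl.X.Disc
import Pool.Agent.Confl.X.Orbit
import Pool.Agent.Confl.HalfPlane

/-! # Different components of the superposition of two matchings do not cross -/

set_option autoImplicit false

open Set Filter Topology

namespace Pool.Agent.Confl

variable {V : Type}

/-- The region of a set `C` of vertices of the planar graph: terminals, half discs, centres of
junctions with both sides in `C`, interiors of the arcs with both ends in `C`. -/
def Drawing.region (D : Drawing V) (r : ℝ) (C : Set D.toSkel.HV) : Set ℂ :=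
  {z | (∃ v, Sum.inl v ∈ C ∧ z = D.pt (Sum.inl v)) ∨
    (∃ j s, Sum.inr (j, s) ∈ C ∧ z ∈ D.half r j s) ∨
    (∃ j, Sum.inr (j, true) ∈ C ∧ Sum.inr (j, false) ∈ C ∧ z = D.pt (Sum.inr j)) ∨
    (∃ a t, t ≠ 0 ∧ t ≠ 1 ∧ D.toSkel.at a true ∈ C ∧ D.toSkel.at a false ∈ C ∧
      z = D.curve a t)}

theorem Drawing.pt_not_half (D : Drawing V) {r : ℝ} (hr : D.GoodR r) (w : V ⊕ D.J) (j : D.J)
    (s : Bool) : D.pt w ∉ D.half r j s := by
  intro h
  rcases w with v | j'
  · have h1 := hr.low j _ h.1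
    rw [D.vertex_im] at h1
    exact lt_irrefl _ h1
  · have h2 : j = j' := hr.disj j j' _ h.1 (by simpa using hr.pos)
    subst h2
    have h3 := h.2
    simp at h3

theorem Drawing.half_inj (D : Drawing V) {r : ℝ} (hr : D.GoodR r) {j j' : D.J} {s s' : Bool}
    {z : ℂ} (h : z ∈ D.half r j s) (h' : z ∈ D.half r j' s') : j = j' ∧ s = s' := by
  have h1 := hr.disj j j' z h.1 h'.1
  subst h1
  refine ⟨rfl, ?_⟩
  by_contra hne
  have h2 := h.2
  have h3 := h'.2
  have h4 : sgn s' = - sgn s := by cases s <;> cases s' <;> simp_all [sgn]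
  rw [h4] at h3
  linarith

theorem Drawing.curve_half (D : Drawing V) {r : ℝ} (hr : D.GoodR r) {C C' : Set D.toSkel.HV}
    (h : Disjoint C C') {a : D.A} {t : unitInterval} (h1 : D.toSkel.at a true ∈ C)
    (h2 : D.toSkel.at a false ∈ C) {j : D.J} {s : Bool} (hj : Sum.inr (j, s) ∈ C')
    (hz : D.curve a t ∈ D.half r j s) : False := by
  obtain ⟨b, hb, hd⟩ := hr.enter j s a t hz
  have e : D.toSkel.at a b = Sum.inr (j, s) := by
    simp only [Skel.at, hb, hd]
  have h3 : D.toSkel.at a b ∈ C := by cases b <;> assumption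
  rw [e] at h3
  exact Set.disjoint_left.1 h h3 hj

theorem Drawing.region_disj (D : Drawing V) {r : ℝ} (hr : D.GoodR r) {C C' : Set D.toSkel.HV}
    (h : Disjoint C C') : Disjoint (D.region r C) (D.region r C') := by
  rw [Set.disjoint_left]
  rintro z h1 h2
  have hd : ∀ x, x ∈ C → x ∈ C' → False := fun x hx hx' => Set.disjoint_left.1 h hx hx'
  rcases h1 with ⟨v, hv, hz⟩ | ⟨j, s, hj, hz⟩ | ⟨j, hj1, hj2, hz⟩ | ⟨a, t, t0, t1, ha1, ha2, hz⟩ <;>
    rcases h2 with ⟨v', hv', hz'⟩ | ⟨j', s', hj', hz'⟩ | ⟨j', hj1', hj2', hz'⟩ |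
      ⟨a', t', t0', t1', ha1', ha2', hz'⟩
  · have := Sum.inl_injective (D.pt_inj (hz.symm.trans hz'))
    subst this
    exact hd _ hv hv'
  · rw [hz] at hz'
    exact D.pt_not_half hr _ _ _ hz'
  · have := D.pt_inj (hz.symm.trans hz')
    exact absurd this (by simp)
  · exact (D.curve_int a' t' t0' t1').2 _ (hz'.symm.trans hz)
  · rw [hz'] at hz
    exact D.pt_not_half hr _ _ _ hz
  · obtain ⟨e1, e2⟩ := D.half_inj hr hz hz'
    subst e1; subst e2
    exact hd _ hj hj'
  · rw [hz'] at hz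
    exact D.pt_not_half hr _ _ _ hz
  · rw [hz'] at hz
    exact D.curve_half hr h.symm ha1' ha2' hj hz
  · have := D.pt_inj (hz.symm.trans hz')
    exact absurd this (by simp)
  · rw [hz] at hz'
    exact D.pt_not_half hr _ _ _ hz'
  · have := Sum.inr_injective (D.pt_inj (hz.symm.trans hz'))
    subst this
    exact hd _ hj1 hj1'
  · exact (D.curve_int a' t' t0' t1').2 _ (hz'.symm.trans hz)
  · exact (D.curve_int a t t0 t1).2 _ (hz.symm.trans hz')
  · rw [hz] at hz'
    exact D.curve_half hr h ha1 ha2 hj' hz'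
  · exact (D.curve_int a t t0 t1).2 _ (hz.symm.trans hz')
  · by_cases e : a = a'
    · subst e
      exact hd _ ha1 ha1'
    · have := (D.curve_disj a a' t t' e (hz.symm.trans hz')).1
      rcases this with h3 | h3
      · exact t0 h3
      · exact t1 h3

theorem Drawing.region_low (D : Drawing V) {r : ℝ} (hr : D.GoodR r) {C : Set D.toSkel.HV} :
    ∀ z ∈ D.region r C, z.im ≤ 0 := by
  rintro z (⟨v, hv, hz⟩ | ⟨j, s, hj, hz⟩ | ⟨j, hj1, hj2, hz⟩ | ⟨a, t, t0, t1, ha1, ha2, hz⟩)
  · rw [hz, D.vertex_im]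
  · exact (hr.low j z hz.1).le
  · rw [hz]
    exact (D.junction_im j).le
  · rw [hz]
    exact (D.curve_int a t t0 t1).1.le

/-- Location of a vertex of the planar graph. -/
def Drawing.loc (D : Drawing V) (r : ℝ) : D.toSkel.HV → Set ℂ
  | Sum.inl v => {D.pt (Sum.inl v)}
  | Sum.inr (j, s) => D.half r j s

theorem sgn_sq (s : Bool) : sgn s * sgn s = 1 := by cases s <;> norm_num [sgn]

theorem Drawing.half_convex (D : Drawing V) (r : ℝ) (j : D.J) (s : Bool) :
    Convex ℝ (D.half r j s) := by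
  have h1 : D.half r j s = Metric.ball (D.pt (Sum.inr j)) r ∩
      {z | 0 < sgn s * ((z - D.pt (Sum.inr j)) * (starRingEnd ℂ) (D.u j)).re} := by
    ext z
    simp [Drawing.half, dist_eq_norm]
  rw [h1]
  refine (convex_ball _ _).inter ?_
  intro z hz w hw a b ha hb hab
  simp only [mem_ofPred_eq] at hz hw ⊢
  have e : (a • z + b • w - D.pt (Sum.inr j)) * (starRingEnd ℂ) (D.u j) =
      (a : ℂ) * ((z - D.pt (Sum.inr j)) * (starRingEnd ℂ) (D.u j)) +
      (b : ℂ) * ((w - D.pt (Sum.inr j)) * (starRingEnd ℂ) (D.u j)) := by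
    have hab' : (a : ℂ) + b = 1 := by exact_mod_cast hab
    have : D.pt (Sum.inr j) = (a : ℂ) * D.pt (Sum.inr j) + b * D.pt (Sum.inr j) := by
      rw [← add_mul, hab', one_mul]
    simp only [Complex.real_smul]
    linear_combination (starRingEnd ℂ) (D.u j) * (-this)
  rw [e, Complex.add_re, Complex.re_ofReal_mul, Complex.re_ofReal_mul]
  rcases eq_or_lt_of_le ha with ha' | ha'
  · have : b = 1 := by linarith
    subst this
    rw [← ha']
    simpa using hw
  · have h2 : 0 < a * (sgn s * ((z - D.pt (Sum.inr j)) * (starRingEnd ℂ) (D.u j)).re) :=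
      mul_pos ha' hz
    have h3 : 0 ≤ b * (sgn s * ((w - D.pt (Sum.inr j)) * (starRingEnd ℂ) (D.u j)).re) :=
      mul_nonneg hb hw.le
    nlinarith

theorem Drawing.half_mem (D : Drawing V) {r : ℝ} (j : D.J) (s : Bool) {k : ℝ}
    (hk : 0 < k) (hk1 : k < r) :
    D.pt (Sum.inr j) + ((sgn s * k : ℝ) : ℂ) * D.u j ∈ D.half r j s := by
  have hu := D.norm_u j
  have hs : |sgn s| = 1 := by cases s <;> norm_num [sgn]
  refine ⟨?_, ?_⟩
  · rw [add_sub_cancel_left, norm_mul, hu, mul_one, Complex.norm_real, Real.norm_eq_abs, abs_mul,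
      hs, one_mul, abs_of_pos hk]
    exact hk1
  · rw [add_sub_cancel_left, mul_assoc, Complex.mul_conj, Complex.normSq_eq_norm_sq, hu]
    simp only [one_pow, Complex.ofReal_one, mul_one, Complex.ofReal_re]
    rw [← mul_assoc, sgn_sq, one_mul]
    exact hk

/-- Segments from the centre into a half disc. -/
theorem Drawing.half_seg (D : Drawing V) {r : ℝ} (j : D.J) (s : Bool) {z : ℂ}
    (hz : z ∈ D.half r j s) {t : ℝ} (ht : 0 < t) (ht1 : t ≤ 1) :
    D.pt (Sum.inr j) + t * (z - D.pt (Sum.inr j)) ∈ D.half r j s := by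
  refine ⟨?_, ?_⟩
  · rw [add_sub_cancel_left, norm_mul, Complex.norm_real, Real.norm_eq_abs, abs_of_pos ht]
    exact lt_of_le_of_lt (mul_le_of_le_one_left (norm_nonneg _) ht1) hz.1
  · rw [add_sub_cancel_left, mul_assoc, Complex.re_ofReal_mul]
    have := hz.2
    have h2 := mul_pos ht this
    nlinarith

theorem joinedIn_of_curve {γ : ℝ → ℂ} (hγ : Continuous γ) {S : Set ℂ} {P : Set ℝ}
    (hP : Convex ℝ P) (h : ∀ t ∈ P, γ t ∈ S) {s t : ℝ} (hs : s ∈ P) (ht : t ∈ P) :
    JoinedIn S (γ s) (γ t) := by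
  have h1 : IsPathConnected P := hP.isPathConnected ⟨s, hs⟩
  have h2 := h1.image hγ
  exact (h2.joinedIn (γ s) ⟨s, hs, rfl⟩ (γ t) ⟨t, ht, rfl⟩).mono (by
    rintro _ ⟨x, hx, rfl⟩
    exact h x hx)

section
variable (D : Drawing V) {r : ℝ} (hr : D.GoodR r) {C : Set D.toSkel.HV}

include hr in
theorem Drawing.loc_ne (w : D.toSkel.HV) : (D.loc r w).Nonempty := by
  rcases w with v | ⟨j, s⟩
  · exact ⟨_, rfl⟩
  · exact ⟨_, D.half_mem j s (half_pos hr.pos) (half_lt_self hr.pos)⟩

theorem Drawing.loc_sub {w : D.toSkel.HV} (hw : w ∈ C) : D.loc r w ⊆ D.region r C := by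
  rcases w with v | ⟨j, s⟩
  · rintro z hz
    exact Or.inl ⟨v, hw, hz⟩
  · intro z hz
    exact Or.inr (Or.inl ⟨j, s, hw, hz⟩)

theorem Drawing.loc_loc {w : D.toSkel.HV} (hw : w ∈ C) {p q : ℂ} (hp : p ∈ D.loc r w)
    (hq : q ∈ D.loc r w) : JoinedIn (D.region r C) p q := by
  rcases w with v | ⟨j, s⟩
  · have e1 : p = D.pt (Sum.inl v) := hp
    have e2 : q = D.pt (Sum.inl v) := hq
    rw [e1, e2]
    exact JoinedIn.refl (D.loc_sub (r := r) hw rfl)
  · exact ((D.half_convex r j s).isPathConnected ⟨p, hp⟩ |>.joinedIn p hp q hq).mono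
      (D.loc_sub hw)

theorem Drawing.loc_centre {j : D.J} {s : Bool} (h1 : Sum.inr (j, true) ∈ C)
    (h2 : Sum.inr (j, false) ∈ C) {p : ℂ} (hp : p ∈ D.half r j s) :
    JoinedIn (D.region r C) (D.pt (Sum.inr j)) p := by
  have hw : Sum.inr (j, s) ∈ C := by cases s <;> assumption
  have h3 : Continuous fun t : ℝ => D.pt (Sum.inr j) + (t : ℂ) * (p - D.pt (Sum.inr j)) := by
    fun_prop
  have h4 := joinedIn_of_curve h3 (S := D.region r C) (convex_Icc (0 : ℝ) 1) (fun t ht => by
    rcases eq_or_lt_of_le ht.1 with h | h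
    · refine Or.inr (Or.inr (Or.inl ⟨j, h1, h2, ?_⟩))
      rw [← h]; simp
    · exact D.loc_sub hw (D.half_seg j s hp h ht.2)) (left_mem_Icc.2 zero_le_one)
      (right_mem_Icc.2 zero_le_one)
  simpa using h4

include hr in
theorem Drawing.loc_arc {a : D.A} {b : Bool} (h1 : D.toSkel.at a b ∈ C)
    (h2 : D.toSkel.at a (!b) ∈ C) {p q : ℂ} (hp : p ∈ D.loc r (D.toSkel.at a b))
    (hq : q ∈ D.loc r (D.toSkel.at a (!b))) : JoinedIn (D.region r C) p q := by
  have hC : ∀ b', D.toSkel.at a b' ∈ C := by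
    intro b'
    cases b <;> cases b' <;> assumption
  set γ : ℝ → ℂ := fun t => D.curve a (projIcc 0 1 zero_le_one t) with hγ
  have hc : Continuous γ := (D.curve_cont a).comp continuous_projIcc
  have hin : ∀ t ∈ Ioo (0 : ℝ) 1, γ t ∈ D.region r C := by
    intro t ht
    refine Or.inr (Or.inr (Or.inr ⟨a, _, ?_, ?_, hC true, hC false, rfl⟩))
    · rw [projIcc_of_mem _ (Ioo_subset_Icc_self ht)]
      intro h
      exact ht.1.ne' (congrArg Subtype.val h)
    · rw [projIcc_of_mem _ (Ioo_subset_Icc_self ht)]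
      intro h
      exact ht.2.ne (congrArg Subtype.val h)
  have key : ∀ (b' : Bool) (p : ℂ), p ∈ D.loc r (D.toSkel.at a b') →
      ∃ t ∈ Ioo (0 : ℝ) 1, JoinedIn (D.region r C) p (γ t) := by
    intro b' p hp
    rcases hE : D.ep a b' with v | j
    · have e : D.toSkel.at a b' = Sum.inl v := by simp only [Skel.at, hE]
      rw [e] at hp
      have hp' : p = D.pt (Sum.inl v) := hp
      have hv : Sum.inl v ∈ C := e ▸ hC b'
      have hcur : D.curve a (par b') = p := by rw [D.curve_par, hE, hp']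
      refine ⟨1 / 2, by norm_num, ?_⟩
      cases b'
      · have h0 : γ 0 = p := by
          rw [← hcur, hγ]
          simp only [projIcc_left, par]
          rfl
        have := joinedIn_of_curve hc (S := D.region r C) (convex_Ico (0 : ℝ) 1) (fun t ht => by
          rcases eq_or_lt_of_le ht.1 with h | h
          · rw [← h, h0, hp']
            exact Or.inl ⟨v, hv, rfl⟩
          · exact hin t ⟨h, ht.2⟩) (s := 0) (t := 1 / 2) (by norm_num) (by norm_num)
        rwa [h0] at this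
      · have h0 : γ 1 = p := by
          rw [← hcur, hγ]
          simp only [projIcc_right, par]
          rfl
        have := joinedIn_of_curve hc (S := D.region r C) (convex_Ioc (0 : ℝ) 1) (fun t ht => by
          rcases eq_or_lt_of_le ht.2 with h | h
          · rw [h, h0, hp']
            exact Or.inl ⟨v, hv, rfl⟩
          · exact hin t ⟨ht.1, h⟩) (s := 1) (t := 1 / 2) (by norm_num) (by norm_num)
        rwa [h0] at this
    · have e : D.toSkel.at a b' = Sum.inr (j, D.dir a b') := by simp only [Skel.at, hE]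
      rw [e] at hp
      have hw : Sum.inr (j, D.dir a b') ∈ C := e ▸ hC b'
      have hn := hr.near j a b' hE
      obtain ⟨t, ht, ht0, ht1⟩ : ∃ t : unitInterval, D.curve a t ∈ D.half r j (D.dir a b') ∧
          t ≠ 0 ∧ t ≠ 1 := by
        have h3 : ∀ᶠ t in 𝓝[≠] par b', t ≠ 0 ∧ t ≠ 1 := by
          have h01 : (0 : unitInterval) ≠ 1 := by
            intro h
            have := congrArg Subtype.val h
            simp at this
          cases b'
          · have : par false = (0 : unitInterval) := rfl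
            rw [this]
            filter_upwards [self_mem_nhdsWithin, mem_nhdsWithin_of_mem_nhds
              (isOpen_ne.mem_nhds h01)] with t h4 h5
            exact ⟨h4, h5⟩
          · have : par true = (1 : unitInterval) := rfl
            rw [this]
            filter_upwards [self_mem_nhdsWithin, mem_nhdsWithin_of_mem_nhds
              (isOpen_ne.mem_nhds h01.symm)] with t h4 h5
            exact ⟨h5, h4⟩
        have : (𝓝[≠] par b').NeBot := inferInstance
        obtain ⟨t, h4, h5⟩ := (hn.and h3).exists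
        exact ⟨t, h4, h5⟩
      refine ⟨t, ⟨?_, ?_⟩, ?_⟩
      · exact lt_of_le_of_ne t.2.1 fun h => ht0 (Subtype.ext h.symm)
      · exact lt_of_le_of_ne t.2.2 fun h => ht1 (Subtype.ext h)
      · have h4 : γ t = D.curve a t := by rw [hγ]; simp only [projIcc_val]
        rw [h4]
        exact D.loc_loc hw hp ht
  obtain ⟨s, hs, h3⟩ := key b p hp
  obtain ⟨t, ht, h4⟩ := key (!b) q hq
  exact (h3.trans (joinedIn_of_curve hc (convex_Ioo (0 : ℝ) 1) hin hs ht)).trans h4.symm

include hr in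
theorem Drawing.loc_adj {x y : D.toSkel.HV} (hx : x ∈ C) (hy : y ∈ C) (h : D.toSkel.HAdj x y)
    {p q : ℂ} (hp : p ∈ D.loc r x) (hq : q ∈ D.loc r y) : JoinedIn (D.region r C) p q := by
  obtain ⟨hne, ⟨a, b, rfl, rfl⟩ | h⟩ := h
  · exact D.loc_arc hr hx hy hp hq
  · rcases x with v | ⟨j, s⟩
    · exact absurd h.symm (by simpa [Skel.stem] using hne)
    · have e : y = Sum.inr (j, !s) := h
      subst e
      have h1 : Sum.inr (j, true) ∈ C := by cases s <;> assumption
      have h2 : Sum.inr (j, false) ∈ C := by cases s <;> assumption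
      exact (D.loc_centre h1 h2 hp).symm.trans (D.loc_centre h1 h2 hq)

include hr in
theorem Drawing.sup_loc {T U : Set V} {f g : D.toSkel.HV → D.toSkel.HV}
    (hf : IsM D.toSkel T f) (hg : IsM D.toSkel U g)
    (hC : ∀ z, (f z ∈ C ↔ z ∈ C) ∧ (g z ∈ C ↔ z ∈ C)) {x y : D.toSkel.HV} (h : Sup f g x y) :
    (x ∈ C ↔ y ∈ C) ∧ (x ∈ C → ∀ p ∈ D.loc r x, ∀ q ∈ D.loc r y,
      JoinedIn (D.region r C) p q) := by
  induction h with
  | rel x y h =>
    rcases h with h | h
    · subst h
      refine ⟨(hC x).1.symm, fun hx p hp q hq => ?_⟩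
      by_cases he : f x = x
      · rw [he] at hq
        exact D.loc_loc hx hp hq
      · exact D.loc_adj hr hx ((hC x).1.2 hx) (hf.adj x he) hp hq
    · subst h
      refine ⟨(hC x).2.symm, fun hx p hp q hq => ?_⟩
      by_cases he : g x = x
      · rw [he] at hq
        exact D.loc_loc hx hp hq
      · exact D.loc_adj hr hx ((hC x).2.2 hx) (hg.adj x he) hp hq
  | refl x => exact ⟨Iff.rfl, fun hx p hp q hq => D.loc_loc hx hp hq⟩
  | symm x y _ ih =>
    exact ⟨ih.1.symm, fun hy p hp q hq => (ih.2 (ih.1.2 hy) q hq p hp).symm⟩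
  | trans x y z _ _ ih1 ih2 =>
    refine ⟨ih1.1.trans ih2.1, fun hx p hp q hq => ?_⟩
    obtain ⟨m, hm⟩ := D.loc_ne hr y
    exact (ih1.2 hx p hp m hm).trans (ih2.2 (ih1.1.1 hx) m hm q hq)

end

/-- Terminals of a component are joined in the region of the component. -/
theorem Drawing.region_joined (D : Drawing V) {r : ℝ} (hr : D.GoodR r) {T U : Set V}
    {f g : D.toSkel.HV → D.toSkel.HV} (hf : IsM D.toSkel T f) (hg : IsM D.toSkel U g)
    {C : Set D.toSkel.HV} (hC : ∀ z, (f z ∈ C ↔ z ∈ C) ∧ (g z ∈ C ↔ z ∈ C)) {a c : V}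
    (ha : Sum.inl a ∈ C) (h : Sup f g (Sum.inl a) (Sum.inl c)) :
    JoinedIn (D.region r C) (D.pt (Sum.inl a)) (D.pt (Sum.inl c)) :=
  (D.sup_loc hr hf hg hC h).2 ha _ rfl _ rfl

theorem Drawing.noncross (D : Drawing V) {T U : Set V}
    {f g : D.toSkel.HV → D.toSkel.HV} (hf : IsM D.toSkel T f) (hg : IsM D.toSkel U g)
    {a b c d : V} (hab : (D.pt (Sum.inl a)).re < (D.pt (Sum.inl b)).re)
    (hbc : (D.pt (Sum.inl b)).re < (D.pt (Sum.inl c)).re)
    (hcd : (D.pt (Sum.inl c)).re < (D.pt (Sum.inl d)).re)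
    (h1 : Sup f g (Sum.inl a) (Sum.inl c)) (h2 : Sup f g (Sum.inl b) (Sum.inl d)) :
    Sup f g (Sum.inl a) (Sum.inl b) := by
  by_contra hn
  obtain ⟨r, hr⟩ := D.exists_goodR
  have hcl : ∀ (w z : D.toSkel.HV), (f z ∈ {y | Sup f g w y} ↔ z ∈ {y | Sup f g w y}) ∧
      (g z ∈ {y | Sup f g w y} ↔ z ∈ {y | Sup f g w y}) := by
    intro w z
    have e1 : Sup f g z (f z) := Relation.EqvGen.rel _ _ (Or.inl rfl)
    have e2 : Sup f g z (g z) := Relation.EqvGen.rel _ _ (Or.inr rfl)
    exact ⟨⟨fun h => Relation.EqvGen.trans _ _ _ h (Relation.EqvGen.symm _ _ e1),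
      fun h => Relation.EqvGen.trans _ _ _ h e1⟩,
      ⟨fun h => Relation.EqvGen.trans _ _ _ h (Relation.EqvGen.symm _ _ e2),
      fun h => Relation.EqvGen.trans _ _ _ h e2⟩⟩
  have j1 := D.region_joined hr hf hg (hcl (Sum.inl a)) (Relation.EqvGen.refl _) h1
  have j2 := D.region_joined hr hf hg (hcl (Sum.inl b)) (Relation.EqvGen.refl _) h2
  have hre : ∀ v, D.pt (Sum.inl v) = (((D.pt (Sum.inl v)).re : ℝ) : ℂ) := by
    intro v
    apply Complex.ext
    · simp
    · simp [D.vertex_im]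
  rw [hre a, hre c] at j1
  rw [hre b, hre d] at j2
  obtain ⟨z, hz1, hz2⟩ := joined_cross hab hbc hcd (D.region_low hr) (D.region_low hr) j1 j2
  refine Set.disjoint_left.1 (D.region_disj hr ?_) hz1 hz2
  rw [Set.disjoint_left]
  intro y hy1 hy2
  exact hn (Relation.EqvGen.trans _ _ _ hy1 (Relation.EqvGen.symm _ _ hy2))

end Pool.Agent.Confl
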