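import Pool.Agent.Confl.X.Defs

/-! # Matchings from smooth paths -/

set_option autoImplicit false

open Set

namespace Pool.Agent.Confl

variable {V : Type}

theorem Skel.walk_stem_stem (S : Skel V) (x : S.HV) : S.stem (S.stem x) = x := by
  rcases x with v | ⟨j, s⟩ <;> simp [Skel.stem]

theorem Skel.walk_adj_symm {S : Skel V} {x y : S.HV} (h : S.HAdj x y) : S.HAdj y x := by
  obtain ⟨h1, h2⟩ := h
  refine ⟨h1.symm, ?_⟩
  rcases h2 with ⟨a, b, h3, h4⟩ | h2
  · exact Or.inl ⟨a, !b, h4, by simpa using h3⟩
  · exact Or.inr (by rw [h2, S.walk_stem_stem])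

open Classical in
/-- Use the arc from `x` to `y`, where `f` exposes `y` and matches `x` by its stem. -/
noncomputable def Skel.walkExt (S : Skel V) (f : S.HV → S.HV) (x y : S.HV) : S.HV → S.HV :=
  fun z => if z = x then y else if z = y then x else if z = S.stem x then z else f z

theorem Skel.walkExt_x (S : Skel V) (f : S.HV → S.HV) (x y : S.HV) : S.walkExt f x y x = y := by
  simp [Skel.walkExt]

theorem Skel.walkExt_y (S : Skel V) (f : S.HV → S.HV) {x y : S.HV} (h : x ≠ y) :
    S.walkExt f x y y = x := by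
  simp [Skel.walkExt, h.symm]

theorem Skel.walkExt_s (S : Skel V) (f : S.HV → S.HV) {x y : S.HV} (h : S.stem x ≠ x)
    (h' : S.stem x ≠ y) : S.walkExt f x y (S.stem x) = S.stem x := by
  simp [Skel.walkExt, h, h']

theorem Skel.walkExt_z (S : Skel V) (f : S.HV → S.HV) {x y z : S.HV} (h : z ≠ x)
    (h' : z ≠ y) (h'' : z ≠ S.stem x) : S.walkExt f x y z = f z := by
  simp [Skel.walkExt, h, h', h'']

theorem Skel.walkExt_inv (S : Skel V) {f : S.HV → S.HV} (h1 : ∀ z, f (f z) = z) {x y : S.HV}
    (hxy : x ≠ y) (hxy2 : S.stem x ≠ y) (hy : f y = y) (hx : f x = S.stem x) (z : S.HV) :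
    S.walkExt f x y (S.walkExt f x y z) = z := by
  by_cases hzx : z = x
  · subst hzx
    rw [S.walkExt_x, S.walkExt_y f hxy]
  by_cases hzy : z = y
  · subst hzy
    rw [S.walkExt_y f hxy, S.walkExt_x]
  by_cases hzs : z = S.stem x
  · subst hzs
    rw [S.walkExt_s f hzx hzy, S.walkExt_s f hzx hzy]
  rw [S.walkExt_z f hzx hzy hzs, S.walkExt_z f, h1]
  · intro h
    apply hzs
    rw [← hx, ← h, h1]
  · intro h
    apply hzy
    rw [← hy, ← h, h1]
  · intro h
    apply hzx
    rw [← h1 x, hx, ← h, h1]

theorem Skel.walkExt_adj (S : Skel V) {f : S.HV → S.HV} (h2 : ∀ z, f z ≠ z → S.HAdj z (f z))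
    {x y : S.HV} (hxy : x ≠ y) (ha : S.HAdj x y) (z : S.HV) (hz : S.walkExt f x y z ≠ z) :
    S.HAdj z (S.walkExt f x y z) := by
  by_cases hzx : z = x
  · subst hzx
    rw [S.walkExt_x]
    exact ha
  by_cases hzy : z = y
  · subst hzy
    rw [S.walkExt_y f hxy]
    exact S.walk_adj_symm ha
  by_cases hzs : z = S.stem x
  · subst hzs
    exact absurd (S.walkExt_s f hzx hzy) hz
  rw [S.walkExt_z f hzx hzy hzs] at hz ⊢
  exact h2 z hz

/-- The matching along a smooth path that starts in the end `x` of a stem (or in a terminal). -/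
theorem exists_isM_aux {S : Skel V} {v : V} : ∀ (p : List S.Dart) (d : S.Dart) (x : S.HV),
    (d :: p).IsChain S.Turn → ((d :: p).map S.head).Nodup →
    ((d :: p).getLast?).map S.head = some (Sum.inl v) → S.at d.1 d.2 = x → x ≠ Sum.inl v →
    (∀ j s, x = Sum.inr (j, s) → Sum.inr j ∉ (d :: p).map S.head) →
    ∃ f : S.HV → S.HV, (∀ z, f (f z) = z) ∧ (∀ z, f z ≠ z → S.HAdj z (f z)) ∧
      f x ≠ x ∧ f (Sum.inl v) ≠ Sum.inl v ∧
      (∀ w, Sum.inl w ≠ x → w ≠ v → f (Sum.inl w) = Sum.inl w) ∧
      (∀ j s, Sum.inr (j, s) ≠ S.stem x → f (Sum.inr (j, s)) ≠ Sum.inr (j, s)) ∧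
      (∀ j s, x = Sum.inr (j, s) → f (Sum.inr (j, !s)) = Sum.inr (j, !s)) ∧
      (∀ j s, Sum.inr j ∉ (d :: p).map S.head → (∀ s', x ≠ Sum.inr (j, s')) →
        f (Sum.inr (j, s)) = Sum.inr (j, !s)) := by
  intro p
  induction p with
  | nil =>
    intro d x _ _ hl hx hxv _
    have hv : S.at d.1 (!d.2) = Sum.inl v := by
      simp only [List.getLast?_singleton, Option.map_some, Option.some.injEq] at hl
      unfold Skel.at
      unfold Skel.head at hl
      rw [hl]
    have hsv : S.stem x ≠ Sum.inl v := by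
      intro h
      apply hxv
      rw [← S.walk_stem_stem x, h]
      rfl
    have hadj : S.HAdj x (Sum.inl v) := ⟨hxv, Or.inl ⟨d.1, d.2, hx, hv⟩⟩
    have hstem : ∀ z, S.stem z ≠ z → S.HAdj z (S.stem z) := fun z hz => ⟨hz.symm, Or.inr rfl⟩
    refine ⟨S.walkExt S.stem x (Sum.inl v),
      S.walkExt_inv S.walk_stem_stem hxv hsv rfl rfl, S.walkExt_adj hstem hxv hadj, ?_, ?_, ?_, ?_,
      ?_, ?_⟩
    · rw [S.walkExt_x]; exact hxv.symm
    · rw [S.walkExt_y _ hxv]; exact hxv
    · intro w hw hwv
      by_cases hs : Sum.inl w = S.stem x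
      · have := S.walkExt_s S.stem (x := x) (y := Sum.inl v) (hs ▸ hw) hsv
        rw [← hs] at this
        exact this
      · rw [S.walkExt_z _ hw (by simpa using hwv) hs]
        rfl
    · intro j s hs
      by_cases hjx : Sum.inr (j, s) = x
      · rw [← hjx, S.walkExt_x]; simp
      · rw [S.walkExt_z _ hjx (by simp) hs]
        simp [Skel.stem]
    · intro j s hxj
      have e : (Sum.inr (j, !s) : S.HV) = S.stem x := by rw [hxj]; rfl
      rw [e]
      exact S.walkExt_s _ (by rw [hxj]; simp [Skel.stem]) hsv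
    · intro j s _ hxj
      rw [S.walkExt_z _ (hxj s).symm (by simp)]
      · rfl
      · intro h
        apply hxj (!s)
        rw [← S.walk_stem_stem x, ← h]
        rfl
  | cons d' p ih =>
    intro d x ht hn hl hx hxv hxj
    rw [List.isChain_cons_cons] at ht
    obtain ⟨⟨j, hj1, hj2, hj3⟩, ht⟩ := ht
    have hn' : ((d' :: p).map S.head).Nodup := by
      rw [List.map_cons, List.nodup_cons] at hn
      exact hn.2
    have hjn : Sum.inr j ∉ (d' :: p).map S.head := by
      rw [List.map_cons, List.nodup_cons, hj1] at hn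
      exact hn.1
    have hjd : Sum.inr j ∈ (d :: d' :: p).map S.head := by
      rw [List.map_cons, hj1]
      exact List.mem_cons_self
    set s := S.dir d.1 (!d.2) with hsdef
    have hy : S.at d'.1 d'.2 = Sum.inr (j, !s) := by
      unfold Skel.at
      unfold Skel.tail at hj2
      rw [hj2]
      have : S.dir d'.1 d'.2 = !s := by
        revert hj3
        generalize S.dir d'.1 d'.2 = t
        cases s <;> cases t <;> simp
      simp [this]
    have hy' : S.at d.1 (!d.2) = Sum.inr (j, s) := by
      unfold Skel.at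
      unfold Skel.head at hj1
      rw [hj1]
    have hl' : ((d' :: p).getLast?).map S.head = some (Sum.inl v) := by
      rw [List.getLast?_cons_cons] at hl
      exact hl
    obtain ⟨f, h1, h2, h3, h4, h5, h6, h7, h8⟩ := ih d' (Sum.inr (j, !s)) ht hn' hl' hy (by simp)
      (by
        intro i t hit
        simp only [Sum.inr.injEq, Prod.mk.injEq] at hit
        rw [← hit.1]
        exact hjn)
    have hfy : f (Sum.inr (j, s)) = Sum.inr (j, s) := by
      have := h7 j (!s) rfl
      simpa using this
    have hxne : ∀ t, x ≠ Sum.inr (j, t) := by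
      intro t h
      exact hxj j t h hjd
    have hfx : f x = S.stem x := by
      rcases x with w | ⟨i, t⟩
      · exact h5 w (by simp) (by simpa using hxv)
      · apply h8 i t
        · intro hi
          exact hxj i t rfl (List.mem_cons_of_mem _ hi)
        · intro s' h
          simp only [Sum.inr.injEq, Prod.mk.injEq] at h
          exact hxj i t rfl (h.1 ▸ hjd)
    have hsx : ∀ t, S.stem x ≠ Sum.inr (j, t) := by
      intro t h
      apply hxne (!t)
      rw [← S.walk_stem_stem x, h]
      rfl
    have hsv : S.stem x ≠ Sum.inl v := by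
      intro h
      apply hxv
      rw [← S.walk_stem_stem x, h]
      rfl
    have hadj : S.HAdj x (Sum.inr (j, s)) := ⟨hxne s, Or.inl ⟨d.1, d.2, hx, hy'⟩⟩
    refine ⟨S.walkExt f x (Sum.inr (j, s)), S.walkExt_inv h1 (hxne s) (hsx s) hfy hfx,
      S.walkExt_adj h2 (hxne s) hadj, ?_, ?_, ?_, ?_, ?_, ?_⟩
    · rw [S.walkExt_x]; exact (hxne s).symm
    · rw [S.walkExt_z _ hxv.symm (by simp) hsv.symm]
      exact h4
    · intro w hw hwv
      by_cases hs : Sum.inl w = S.stem x
      · have := S.walkExt_s f (x := x) (y := Sum.inr (j, s)) (hs ▸ hw) (hsx s)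
        rw [← hs] at this
        exact this
      · rw [S.walkExt_z _ hw (by simp) hs]
        exact h5 w (by simp) hwv
    · intro i t hs
      by_cases hix : Sum.inr (i, t) = x
      · rw [hix, S.walkExt_x]; exact (hxne s).symm
      by_cases hiy : (Sum.inr (i, t) : S.HV) = Sum.inr (j, s)
      · rw [hiy, S.walkExt_y _ (hxne s)]; exact hxne s
      · rw [S.walkExt_z _ hix hiy hs]
        apply h6 i t
        simpa [Skel.stem] using hiy
    · intro i t hxi
      have e : (Sum.inr (i, !t) : S.HV) = S.stem x := by rw [hxi]; rfl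
      rw [e]
      exact S.walkExt_s _ (by rw [hxi]; simp [Skel.stem]) (hsx s)
    · intro i t hi hxi
      have hij : i ≠ j := by
        rintro rfl
        exact hi hjd
      rw [S.walkExt_z _ (hxi t).symm (by simp [hij])]
      · apply h8 i t
        · intro h
          exact hi (List.mem_cons_of_mem _ h)
        · intro s' h
          simp only [Sum.inr.injEq, Prod.mk.injEq] at h
          exact hij h.1.symm
      · intro h
        apply hxi (!t)
        rw [← S.walk_stem_stem x, ← h]
        rfl

theorem exists_isM_of_path {S : Skel V} {u v : V} (huv : u ≠ v) {p : List S.Dart}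
    (h : S.IsSmoothPath u v p) : ∃ f, IsM S {u, v} f := by
  obtain ⟨hs, hf, ht, hn⟩ := h
  rcases p with _ | ⟨d, p⟩
  · simp at hs
  · have hx : S.at d.1 d.2 = Sum.inl u := by
      simp only [List.head?_cons, Option.map_some, Option.some.injEq] at hs
      unfold Skel.at
      unfold Skel.tail at hs
      rw [hs]
    obtain ⟨f, h1, h2, h3, h4, h5, h6, h7, h8⟩ := exists_isM_aux p d (Sum.inl u) ht hn hf hx
      (by simpa using huv) (by intro j s hh; cases hh)
    refine ⟨f, h1, fun x hx => h2 x hx, fun j s => h6 j s (by simp [Skel.stem]), fun w => ?_⟩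
    constructor
    · intro hw
      by_contra hc
      simp only [mem_insert_iff, mem_singleton_iff, not_or] at hc
      exact hw (h5 w (by simpa using hc.1) hc.2)
    · rintro (rfl | hw)
      · exact h3
      · rw [mem_singleton_iff] at hw
        subst hw
        exact h4

end Pool.Agent.Confl
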