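import Pool.Agent.Confl.Main
import Pool.Agent.Confl.Reflect
import Pool.Agent.Confl.X.Count
import Pool.Agent.Confl.X.Region
import Pool.Agent.Confl.X.Walk
import Pool.Agent.Confl.X.Path
import Pool.Agent.Confl.X.Seven

/-! # The pattern has no outerconfluent drawing -/

set_option autoImplicit false

open Set

namespace Pool.Agent.Confl

variable {V : Type}

theorem Sup.refl {W : Type} {f g : W → W} (a : W) : Sup f g a a := Relation.EqvGen.refl a

theorem Sup.symm {W : Type} {f g : W → W} {a b : W} (h : Sup f g a b) : Sup f g b a :=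
  Relation.EqvGen.symm _ _ h

theorem Sup.trans {W : Type} {f g : W → W} {a b c : W} (h : Sup f g a b) (h' : Sup f g b c) :
    Sup f g a c := Relation.EqvGen.trans _ _ _ h h'

/-- Components do not cross, cyclic form. -/
theorem noncross_btw (D : Drawing V) {T U : Set V} {f g : D.toSkel.HV → D.toSkel.HV}
    (hf : IsM D.toSkel T f) (hg : IsM D.toSkel U g) {x : V → ℝ} (hx : Function.Injective x)
    (hD : ∀ u v, x u < x v ↔ (D.pt (Sum.inl u)).re < (D.pt (Sum.inl v)).re)
    {a b c d : V} (hab : a ≠ b) (hbc : b ≠ c) (hcd : c ≠ d) (hda : d ≠ a)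
    (h : Btw x a c b ↔ ¬ Btw x a c d) (h1 : Sup f g (Sum.inl a) (Sum.inl c))
    (h2 : Sup f g (Sum.inl b) (Sum.inl d)) : Sup f g (Sum.inl a) (Sum.inl b) := by
  have key : ∀ {a b c d : V}, x a < x b → x b < x c → x c < x d →
      Sup f g (Sum.inl a) (Sum.inl c) → Sup f g (Sum.inl b) (Sum.inl d) →
      Sup f g (Sum.inl a) (Sum.inl b) := fun h1 h2 h3 =>
    D.noncross hf hg ((hD _ _).1 h1) ((hD _ _).1 h2) ((hD _ _).1 h3)
  -- the case in which b is between a and c and d is not
  have main : ∀ {a b c d : V}, c ≠ d → d ≠ a → Btw x a c b → ¬ Btw x a c d →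
      Sup f g (Sum.inl a) (Sum.inl c) → Sup f g (Sum.inl b) (Sum.inl d) →
      Sup f g (Sum.inl a) (Sum.inl b) := by
    intro a b c d hcd hda hb hd h1 h2
    rcases hb with ⟨e1, e2⟩ | ⟨e1, e2⟩
    · rcases lt_or_gt_of_ne (fun e => hcd (hx e) : x c ≠ x d) with e3 | e3
      · exact key e1 e2 e3 h1 h2
      · have e4 : x d < x a := by
          rcases lt_or_gt_of_ne (fun e => hda (hx e) : x d ≠ x a) with e4 | e4
          · exact e4
          · exact absurd (Or.inl ⟨e4, e3⟩) hd
        have h3 := key e4 e1 e2 h2.symm h1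
        exact h3.symm.trans h2.symm
    · rcases lt_or_gt_of_ne (fun e => hcd (hx e) : x c ≠ x d) with e3 | e3
      · have e4 : x a < x d := by
          rcases lt_or_gt_of_ne (fun e => hda (hx e) : x d ≠ x a) with e4 | e4
          · exact absurd (Or.inr ⟨e3, e4⟩) hd
          · exact e4
        have h3 := key e1 e2 e4 h1.symm h2
        exact h1.trans h3
      · have h3 := key e3 e1 e2 h2.symm h1.symm
        exact (h1.trans h3.symm).trans h2.symm
  by_cases hb : Btw x a c b
  · exact main hcd hda hb (h.1 hb) h1 h2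
  · have hd : Btw x a c d := by
      by_contra hd
      exact hb (h.2 hd)
    have h3 := main hbc.symm hab.symm hd hb h1 h2.symm
    exact h3.trans h2.symm

theorem no_patX (G : SimpleGraph V) (x : V → ℝ) (hx : Function.Injective x)
    (h : OuterconfluentAt G x) (v : Fin 6 → V) : ¬ PatX G x v := by
  rintro ⟨hv, hcyc, e13, e04, e25, n03, n14, n15, n24⟩
  obtain ⟨D, hD, hord⟩ := h
  obtain ⟨D', hpt, hr⟩ := drawing_comap v hv D
  have hD' := hr G hD
  have hx' : Function.Injective (fun i => x (v i)) := hx.comp hv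
  have hord' : ∀ i j : Fin 6, (fun i => x (v i)) i < (fun i => x (v i)) j ↔
      (D'.pt (Sum.inl i)).re < (D'.pt (Sum.inl j)).re := by
    intro i j
    rw [hpt, hpt]
    exact hord _ _
  have hJ : Finite D'.toSkel.J := D'.finite_J
  refine count_main D'.toSkel ?_ ?_ ?_ ?_ ?_ ?_ ?_ ?_
  · intro T U f g hf hg i j k l hij hjk hkl h1 h2
    exact noncross_btw D' hf hg hx' hord' hij.ne hjk.ne hkl.ne
      ((hij.trans hjk).trans hkl).ne' (hcyc i j k l hij hjk hkl) h1 h2
  · rintro ⟨f, hf⟩
    exact n03 ((hD' 0 3 (by decide)).2 (exists_path_of_isM (by decide) hf))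
  · rintro ⟨f, hf⟩
    exact n14 ((hD' 1 4 (by decide)).2 (exists_path_of_isM (by decide) hf))
  · rintro ⟨f, hf⟩
    exact n15 ((hD' 1 5 (by decide)).2 (exists_path_of_isM (by decide) hf))
  · rintro ⟨f, hf⟩
    exact n24 ((hD' 2 4 (by decide)).2 (exists_path_of_isM (by decide) hf))
  · obtain ⟨p, hp⟩ := (hD' 1 3 (by decide)).1 e13
    exact exists_isM_of_path (by decide) hp
  · obtain ⟨p, hp⟩ := (hD' 0 4 (by decide)).1 e04
    exact exists_isM_of_path (by decide) hp
  · obtain ⟨p, hp⟩ := (hD' 2 5 (by decide)).1 e25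
    exact exists_isM_of_path (by decide) hp

theorem not_outerconfluent_G7 : ¬ Outerconfluent G7 := by
  rintro ⟨D, hD⟩
  have hx : Function.Injective fun v => (D.pt (Sum.inl v)).re := fun u v huv => by
    have : D.pt (Sum.inl u) = D.pt (Sum.inl v) :=
      Complex.ext huv (by rw [D.vertex_im, D.vertex_im])
    exact Sum.inl_injective (D.pt_inj this)
  have hat : OuterconfluentAt G7 fun v => (D.pt (Sum.inl v)).re := ⟨D, hD, fun u v => Iff.rfl⟩
  obtain ⟨v, hv⟩ := patX_G7 _ hx (lc_of_outerconfluentAt _ _ hx hat)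
  exact no_patX _ _ hx hat v hv

theorem mainX :
    (∀ (V : Type) (G : SimpleGraph V) (x : V → ℝ), Function.Injective x →
      OuterconfluentAt G x → ∀ v, ¬ PatX G x v) ∧
    (∃ G : SimpleGraph (Fin 7), (∃ x : Fin 7 → ℝ, Function.Injective x ∧ LC G x) ∧
      ¬ Outerconfluent G) :=
  ⟨fun V G x hx h v => no_patX G x hx h v,
    G7, ⟨fun i => (i : ℝ), fun i j hij => Fin.ext (by simpa using hij), lc_G7⟩,
    not_outerconfluent_G7⟩

end Pool.Agent.Confl
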