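import Pool.Agent.Confl.Defs

/-!
# The planar graph of a drawing and its matchings

Every junction `j` is replaced by a stem joining `(j, true)` and `(j, false)`; an arc end at `j`
with direction `s` is attached to `(j, s)`.
-/

set_option autoImplicit false

open Set

namespace Pool.Agent.Confl

variable {V : Type}

/-- Vertices of the planar graph: terminals and the two ends of every stem. -/
abbrev Skel.HV (S : Skel V) : Type := V ⊕ S.J × Bool

/-- The vertex of the planar graph at an arc end. -/
def Skel.at (S : Skel V) (a : S.A) (b : Bool) : S.HV :=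
  match S.ep a b with
  | Sum.inl v => Sum.inl v
  | Sum.inr j => Sum.inr (j, S.dir a b)

/-- The matching consisting of all stems. -/
def Skel.stem (S : Skel V) : S.HV → S.HV
  | Sum.inl v => Sum.inl v
  | Sum.inr (j, s) => Sum.inr (j, !s)

/-- Adjacency in the planar graph. -/
def Skel.HAdj (S : Skel V) (x y : S.HV) : Prop :=
  x ≠ y ∧ ((∃ a b, S.at a b = x ∧ S.at a (!b) = y) ∨ y = S.stem x)

/-- `f` is a perfect matching (written as an involution) of the planar graph restricted to all ends
of stems and the terminals in `T`. -/
structure IsM (S : Skel V) (T : Set V) (f : S.HV → S.HV) : Prop where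
  inv : ∀ x, f (f x) = x
  adj : ∀ x, f x ≠ x → S.HAdj x (f x)
  int : ∀ j s, f (Sum.inr (j, s)) ≠ Sum.inr (j, s)
  term : ∀ v, f (Sum.inl v) ≠ Sum.inl v ↔ v ∈ T

/-- `x` and `y` are in the same component of the superposition of `f` and `g`. -/
def Sup {W : Type} (f g : W → W) : W → W → Prop :=
  Relation.EqvGen (fun x y => y = f x ∨ y = g x)

open Classical in
/-- Replace `f` by `g` on `C`. -/
noncomputable def swp {W : Type} (C : Set W) (f g : W → W) : W → W :=
  fun x => if x ∈ C then g x else f x

end Pool.Agent.Confl
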