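import Pool.Agent.Confl.X.Defs

/-! # Half discs at the junctions of a drawing -/

set_option autoImplicit false

open Set Filter Topology

namespace Pool.Agent.Confl

variable {V : Type}

/-- Open half disc of radius `r` at the junction `j` on the side `s`. -/
def Drawing.half (D : Drawing V) (r : ℝ) (j : D.J) (s : Bool) : Set ℂ :=
  {z | ‖z - D.pt (Sum.inr j)‖ < r ∧
    0 < sgn s * ((z - D.pt (Sum.inr j)) * (starRingEnd ℂ) (D.u j)).re}

/-- A radius such that the discs at the junctions are disjoint and below the real axis, arcs enter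
the half disc on the side `s` only if they have an end at this side of the junction, and the arcs
with an end at this side are in the half disc near this end. -/
structure Drawing.GoodR (D : Drawing V) (r : ℝ) : Prop where
  pos : 0 < r
  low : ∀ j (z : ℂ), ‖z - D.pt (Sum.inr j)‖ < r → z.im < 0
  disj : ∀ j j' (z : ℂ), ‖z - D.pt (Sum.inr j)‖ < r → ‖z - D.pt (Sum.inr j')‖ < r → j = j'
  enter : ∀ j s a t, D.curve a t ∈ D.half r j s → ∃ b, D.ep a b = Sum.inr j ∧ D.dir a b = s
  near : ∀ j a b, D.ep a b = Sum.inr j →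
    ∀ᶠ t in 𝓝[≠] par b, D.curve a t ∈ D.half r j (D.dir a b)

private theorem sgn_mul_self (b : Bool) : sgn b * sgn b = 1 := by
  cases b <;> norm_num [sgn]

private theorem re_scale (z u : ℂ) : ‖z‖ * ((z / (‖z‖ : ℂ)) * (starRingEnd ℂ) u).re =
    (z * (starRingEnd ℂ) u).re := by
  by_cases hz : z = 0
  · simp [hz]
  · have h : (‖z‖ : ℂ) ≠ 0 := by exact_mod_cast norm_ne_zero_iff.2 hz
    have e : (z * (starRingEnd ℂ) u) = (‖z‖ : ℂ) * ((z / (‖z‖ : ℂ)) * (starRingEnd ℂ) u) := by
      field_simp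
    rw [e, Complex.re_ofReal_mul]

/-- near an end at the junction `j`, an arc is strictly on its side of the normal -/
private theorem side (D : Drawing V) (j : D.J) (a : D.A) (b : Bool)
    (h : D.ep a b = Sum.inr j) : ∀ᶠ t in 𝓝[≠] par b,
      0 < sgn (D.dir a b) *
        ((D.curve a t - D.pt (Sum.inr j)) * (starRingEnd ℂ) (D.u j)).re := by
  have h1 := D.tangent a b j h
  have hu : D.u j * (starRingEnd ℂ) (D.u j) = 1 := by
    rw [Complex.mul_conj, Complex.normSq_eq_norm_sq, D.norm_u j]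
    norm_num
  have h2 : Tendsto (fun t => sgn (D.dir a b) *
      (((D.curve a t - D.pt (Sum.inr j)) / (‖D.curve a t - D.pt (Sum.inr j)‖ : ℂ)) *
        (starRingEnd ℂ) (D.u j)).re) (𝓝[≠] par b) (𝓝 1) := by
    have h3 := (h1.mul_const ((starRingEnd ℂ) (D.u j)))
    have h4 := (Complex.continuous_re.tendsto _).comp h3
    have h5 := h4.const_mul (sgn (D.dir a b))
    have e : sgn (D.dir a b) *
        (((sgn (D.dir a b) : ℂ) * D.u j) * (starRingEnd ℂ) (D.u j)).re = 1 := by
      rw [mul_assoc, hu, mul_one, Complex.ofReal_re, sgn_mul_self]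
    rw [e] at h5
    exact h5
  have h3 := h2.eventually (lt_mem_nhds (show (0 : ℝ) < 1 from one_pos))
  refine h3.mono fun t ht => ?_
  have h0 : D.curve a t - D.pt (Sum.inr j) ≠ 0 := by
    intro h0
    rw [h0] at ht
    simp at ht
  have hn : 0 < ‖D.curve a t - D.pt (Sum.inr j)‖ := norm_pos_iff.2 h0
  rw [← re_scale, mul_left_comm]
  exact mul_pos hn ht

private theorem near_all (D : Drawing V) {r : ℝ} (hr : 0 < r) (j : D.J) (a : D.A) (b : Bool)
    (h : D.ep a b = Sum.inr j) :
    ∀ᶠ t in 𝓝[≠] par b, D.curve a t ∈ D.half r j (D.dir a b) := by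
  have h1 := side D j a b h
  have h2 : ∀ᶠ t in 𝓝[≠] par b, ‖D.curve a t - D.pt (Sum.inr j)‖ < r := by
    have h3 : Tendsto (fun t => ‖D.curve a t - D.pt (Sum.inr j)‖) (𝓝 (par b)) (𝓝 0) := by
      have h4 : Continuous fun t => ‖D.curve a t - D.pt (Sum.inr j)‖ :=
        ((D.curve_cont a).sub continuous_const).norm
      have h5 := h4.tendsto (par b)
      rw [D.curve_par, h, sub_self, norm_zero] at h5
      exact h5
    exact (h3.mono_left nhdsWithin_le_nhds).eventually (gt_mem_nhds hr)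
  exact h2.and h1

private theorem enter_one (D : Drawing V) (j : D.J) (s : Bool) (a : D.A) :
    ∃ r : ℝ, 0 < r ∧ ∀ t, D.curve a t ∈ D.half r j s →
      ∃ b, D.ep a b = Sum.inr j ∧ D.dir a b = s := by
  by_cases hb : ∃ b, D.ep a b = Sum.inr j ∧ D.dir a b = s
  · exact ⟨1, one_pos, fun _ _ => hb⟩
  push Not at hb
  have key : ∃ r : ℝ, 0 < r ∧ ∀ t ∈ (univ : Set unitInterval), D.curve a t ∉ D.half r j s := by
    refine isCompact_univ.induction_on (p := fun S : Set unitInterval =>
      ∃ r : ℝ, 0 < r ∧ ∀ t ∈ S, D.curve a t ∉ D.half r j s) ?_ ?_ ?_ ?_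
    · exact ⟨1, one_pos, fun t ht => absurd ht (notMem_empty t)⟩
    · rintro S T hST ⟨r, hr, h⟩
      exact ⟨r, hr, fun t ht => h t (hST ht)⟩
    · rintro S T ⟨r, hr, h⟩ ⟨r', hr', h'⟩
      refine ⟨min r r', lt_min hr hr', ?_⟩
      rintro t (ht | ht) hc
      · exact h t ht ⟨hc.1.trans_le (min_le_left _ _), hc.2⟩
      · exact h' t ht ⟨hc.1.trans_le (min_le_right _ _), hc.2⟩
    · intro t _
      rw [nhdsWithin_univ]
      by_cases ht : D.curve a t = D.pt (Sum.inr j)
      · -- an end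
        have hend : ∃ b, t = par b := by
          by_contra hne
          push Not at hne
          have h0 : t ≠ 0 := hne false
          have h1 : t ≠ 1 := hne true
          exact (D.curve_int a t h0 h1).2 _ ht
        obtain ⟨b, rfl⟩ := hend
        have hep : D.ep a b = Sum.inr j := by
          rw [D.curve_par] at ht
          exact D.pt_inj ht
        have hs : D.dir a b ≠ s := hb b hep
        have h1 := side D j a b hep
        rw [eventually_nhdsWithin_iff] at h1
        refine ⟨_, h1, 1, one_pos, ?_⟩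
        intro t' ht' hc
        by_cases he : t' = par b
        · have h2 := hc.2
          rw [he, D.curve_par, hep, sub_self, zero_mul] at h2
          simp at h2
        · have h2 := ht' he
          have h3 := hc.2
          have h4 : sgn (D.dir a b) = -sgn s := by
            revert hs
            cases D.dir a b <;> cases s <;> simp [sgn]
          rw [h4] at h2
          linarith
      · have hpos : 0 < ‖D.curve a t - D.pt (Sum.inr j)‖ := norm_pos_iff.2 (sub_ne_zero.2 ht)
        have h4 : Continuous fun t => ‖D.curve a t - D.pt (Sum.inr j)‖ :=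
          ((D.curve_cont a).sub continuous_const).norm
        have h5 := (h4.tendsto t).eventually (lt_mem_nhds (half_lt_self hpos))
        refine ⟨_, h5, _, half_pos hpos, ?_⟩
        intro t' ht' hc
        exact absurd hc.1 (not_lt.2 (le_of_lt ht'))
  obtain ⟨r, hr, h⟩ := key
  exact ⟨r, hr, fun t ht => absurd ht (h t (mem_univ t))⟩

private theorem low_one (D : Drawing V) (j : D.J) :
    ∃ r : ℝ, 0 < r ∧ ∀ z : ℂ, ‖z - D.pt (Sum.inr j)‖ < r → z.im < 0 := by
  refine ⟨-(D.pt (Sum.inr j)).im, neg_pos.2 (D.junction_im j), fun z hz => ?_⟩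
  have h1 := (abs_le.1 (Complex.abs_im_le_norm (z - D.pt (Sum.inr j)))).2
  rw [Complex.sub_im] at h1
  linarith

private theorem disj_one (D : Drawing V) (j j' : D.J) :
    ∃ r : ℝ, 0 < r ∧ ∀ z : ℂ, ‖z - D.pt (Sum.inr j)‖ < r → ‖z - D.pt (Sum.inr j')‖ < r →
      j = j' := by
  by_cases hj : j = j'
  · exact ⟨1, one_pos, fun _ _ _ => hj⟩
  · have h0 : D.pt (Sum.inr j) ≠ D.pt (Sum.inr j') := fun h => hj (Sum.inr_injective (D.pt_inj h))
    have hpos : 0 < ‖D.pt (Sum.inr j) - D.pt (Sum.inr j')‖ := norm_pos_iff.2 (sub_ne_zero.2 h0)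
    refine ⟨_, half_pos hpos, fun z h1 h2 => ?_⟩
    exfalso
    have h3 := norm_sub_le (z - D.pt (Sum.inr j')) (z - D.pt (Sum.inr j))
    have e : (z - D.pt (Sum.inr j')) - (z - D.pt (Sum.inr j)) =
      D.pt (Sum.inr j) - D.pt (Sum.inr j') := by ring
    rw [e] at h3
    linarith

private theorem ev {P : ℝ → Prop} (h : ∃ r : ℝ, 0 < r ∧ P r)
    (hm : ∀ r r', r ≤ r' → P r' → P r) : ∀ᶠ r in 𝓝[>] (0 : ℝ), P r := by
  obtain ⟨r, hr, hP⟩ := h
  filter_upwards [Ioc_mem_nhdsGT hr] with x hx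
  exact hm x r hx.2 hP

theorem Drawing.exists_goodR (D : Drawing V) : ∃ r, D.GoodR r := by
  have := D.finite_J
  have := D.finite_A
  have h1 : ∀ᶠ r in 𝓝[>] (0 : ℝ), 0 < r := self_mem_nhdsWithin
  have h2 : ∀ᶠ r in 𝓝[>] (0 : ℝ), ∀ j (z : ℂ), ‖z - D.pt (Sum.inr j)‖ < r → z.im < 0 := by
    rw [eventually_all]
    exact fun j => ev (low_one D j) fun r r' hr h z hz => h z (hz.trans_le hr)
  have h3 : ∀ᶠ r in 𝓝[>] (0 : ℝ), ∀ j j' (z : ℂ), ‖z - D.pt (Sum.inr j)‖ < r →
      ‖z - D.pt (Sum.inr j')‖ < r → j = j' := by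
    rw [eventually_all]
    intro j
    rw [eventually_all]
    exact fun j' => ev (disj_one D j j') fun r r' hr h z hz hz' =>
      h z (hz.trans_le hr) (hz'.trans_le hr)
  have h4 : ∀ᶠ r in 𝓝[>] (0 : ℝ), ∀ j s a t, D.curve a t ∈ D.half r j s →
      ∃ b, D.ep a b = Sum.inr j ∧ D.dir a b = s := by
    rw [eventually_all]
    intro j
    rw [eventually_all]
    intro s
    rw [eventually_all]
    exact fun a => ev (enter_one D j s a) fun r r' hr h t ht => h t ⟨ht.1.trans_le hr, ht.2⟩
  obtain ⟨r, ⟨⟨p1, p2⟩, p3⟩, p4⟩ := (((h1.and h2).and h3).and h4).exists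
  exact ⟨r, ⟨p1, p2, p3, p4, fun j a b h => near_all D p1 j a b h⟩⟩

end Pool.Agent.Confl
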