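import Pool.Agent.Confl.X.Orbit

/-! # Swapping components of two matchings -/

set_option autoImplicit false

open Set

namespace Pool.Agent.Confl

variable {V : Type}

/-- The component of the terminal `v`. -/
def comp' {S : Skel V} (f g : S.HV → S.HV) (v : V) : Set S.HV := {y | Sup f g (Sum.inl v) y}

theorem IsM.swp {S : Skel V} {T U : Set V} {f g : S.HV → S.HV} (hf : IsM S T f) (hg : IsM S U g)
    {C : Set S.HV} (hC : ∀ z, (f z ∈ C ↔ z ∈ C) ∧ (g z ∈ C ↔ z ∈ C)) :
    IsM S {v | (v ∈ T ∧ Sum.inl v ∉ C) ∨ (v ∈ U ∧ Sum.inl v ∈ C)} (swp C f g) := by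
  classical
  have hin : ∀ x, x ∈ C → Pool.Agent.Confl.swp C f g x = g x := fun x hx => by
    simp only [Pool.Agent.Confl.swp, if_pos hx]
  have hout : ∀ x, x ∉ C → Pool.Agent.Confl.swp C f g x = f x := fun x hx => by
    simp only [Pool.Agent.Confl.swp, if_neg hx]
  refine ⟨?_, ?_, ?_, ?_⟩
  · intro x
    by_cases hx : x ∈ C
    · rw [hin x hx, hin _ ((hC x).2.2 hx), hg.inv]
    · have h2 : f x ∉ C := fun h => hx ((hC x).1.1 h)
      rw [hout x hx, hout _ h2, hf.inv]
  · intro x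
    by_cases hx : x ∈ C
    · rw [hin x hx]
      exact hg.adj x
    · rw [hout x hx]
      exact hf.adj x
  · intro j s
    by_cases hx : (Sum.inr (j, s) : S.HV) ∈ C
    · rw [hin _ hx]
      exact hg.int j s
    · rw [hout _ hx]
      exact hf.int j s
  · intro v
    by_cases hx : (Sum.inl v : S.HV) ∈ C
    · rw [hin _ hx, hg.term v]
      simp only [Set.mem_setOf_eq, hx, not_true_eq_false, and_false, false_or, and_true]
    · rw [hout _ hx, hf.term v]
      simp only [Set.mem_setOf_eq, hx, not_false_eq_true, and_true, and_false, or_false]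

theorem comp'_closed {S : Skel V} {T U : Set V} {f g : S.HV → S.HV} (hf : IsM S T f)
    (hg : IsM S U g) (v : V) (z : S.HV) :
    (f z ∈ comp' f g v ↔ z ∈ comp' f g v) ∧ (g z ∈ comp' f g v ↔ z ∈ comp' f g v) := by
  have h1 : Sup f g z (f z) := Relation.EqvGen.rel _ _ (Or.inl rfl)
  have h2 : Sup f g z (g z) := Relation.EqvGen.rel _ _ (Or.inr rfl)
  refine ⟨⟨fun h => ?_, fun h => ?_⟩, ⟨fun h => ?_, fun h => ?_⟩⟩
  · exact Relation.EqvGen.trans _ _ _ h (Relation.EqvGen.symm _ _ h1)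
  · exact Relation.EqvGen.trans _ _ _ h h1
  · exact Relation.EqvGen.trans _ _ _ h (Relation.EqvGen.symm _ _ h2)
  · exact Relation.EqvGen.trans _ _ _ h h2

/-- Every terminal covered by exactly one of the two matchings has exactly one partner. -/
theorem term_partner [Finite V] {S : Skel V} [Finite S.J] {T U : Set V} {f g : S.HV → S.HV}
    (hf : IsM S T f) (hg : IsM S U g) {v : V} (hv : (v ∈ T) ≠ (v ∈ U)) :
    ∃ w, w ≠ v ∧ Sup f g (Sum.inl v) (Sum.inl w) ∧ (w ∈ T) ≠ (w ∈ U) ∧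
      ∀ z, z ≠ v → Sup f g (Sum.inl v) (Sum.inl z) → (z ∉ T ∨ z ∉ U) → z = w := by
  have key : ∀ w : V, ((f (Sum.inl w) = Sum.inl w) ≠ (g (Sum.inl w) = Sum.inl w)) ↔
      ((w ∈ T) ≠ (w ∈ U)) := by
    intro w
    have h1 := hf.term w
    have h2 := hg.term w
    have h3 : (f (Sum.inl w) = Sum.inl w) ↔ w ∉ T := by
      rw [← h1]; exact not_not.symm
    have h4 : (g (Sum.inl w) = Sum.inl w) ↔ w ∉ U := by
      rw [← h2]; exact not_not.symm
    rw [ne_eq, ne_eq, eq_iff_iff, eq_iff_iff, h3, h4]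
    tauto
  haveI : Finite S.HV := inferInstanceAs (Finite (V ⊕ S.J × Bool))
  obtain ⟨y, hy1, hy2, hy3, hy4⟩ := sup_partner hf.inv hg.inv ((key v).2 hv)
  rcases y with w | ⟨j, s⟩
  · refine ⟨w, fun h => hy1 (by rw [h]), hy2, (key w).1 hy3, ?_⟩
    intro z hz1 hz2 hz3
    have h5 : f (Sum.inl z) = Sum.inl z ∨ g (Sum.inl z) = Sum.inl z := by
      rcases hz3 with h | h
      · left
        by_contra h6
        exact h ((hf.term z).1 h6)
      · right
        by_contra h6
        exact h ((hg.term z).1 h6)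
    have h7 := hy4 (Sum.inl z) (fun h => hz1 (Sum.inl.inj h)) hz2 h5
    exact Sum.inl.inj h7
  · exfalso
    apply hy3
    have h1 := hf.int j s
    have h2 := hg.int j s
    exact propext ⟨fun h => absurd h h1, fun h => absurd h h2⟩

end Pool.Agent.Confl
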